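import Pool.Agent.H75.TT.Tri

/-!
`T P` is a triangulated category.
-/

open CategoryTheory CategoryTheory.Limits CategoryTheory.Pretriangulated

namespace Pool.Agent.H75.TT

open Fam DG

variable {P : Type} [Category.{0} P] [Preadditive P]

namespace T

/-- The distinguished triangles of `T P`. -/
def distTri (P : Type) [Category.{0} P] [Preadditive P] : Set (Triangle (T P)) :=
  {X | ∃ (A B : DG P) (f : A ⟶ B), Nonempty (X ≅ coneTriT f)}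

lemma distTri_iso (X : Triangle (T P)) (hX : X ∈ distTri P) (Y : Triangle (T P)) (e : Y ≅ X) :
    Y ∈ distTri P := by
  obtain ⟨A, B, f, ⟨e'⟩⟩ := hX
  exact ⟨A, B, f, ⟨e ≪≫ e'⟩⟩

lemma distTri_contractible (X : T P) : contractibleTriangle X ∈ distTri P := by
  obtain ⟨A⟩ := X
  refine ⟨_, _, 𝟙 A, ⟨?_⟩⟩
  have h := isZero_cone_id A
  refine Triangle.isoMk _ _ (Iso.refl _) (Iso.refl _) ((isZero_zero (T P)).iso h) ?_ ?_ ?_
  · change 𝟙 (Q.obj A) ≫ 𝟙 _ = 𝟙 _ ≫ Q.map (𝟙 A)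
    simp
  · exact h.eq_of_tgt _ _
  · exact (isZero_zero (T P)).eq_of_src _ _

lemma distTri_cocone {X Y : T P} (f : X ⟶ Y) :
    ∃ (Z : T P) (g : Y ⟶ Z) (h : Z ⟶ X⟦(1 : ℤ)⟧), Triangle.mk f g h ∈ distTri P := by
  obtain ⟨A⟩ := X
  obtain ⟨B⟩ := Y
  obtain ⟨f, rfl⟩ := (Q : DG P ⥤ T P).map_surjective f
  exact ⟨_, _, _, ⟨_, _, f, ⟨Iso.refl _⟩⟩⟩

lemma distTri_rotate' (X : Triangle (T P)) (hX : X ∈ distTri P) : X.rotate ∈ distTri P := by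
  obtain ⟨A, B, f, ⟨e⟩⟩ := hX
  exact ⟨_, _, _, ⟨(rotate _).mapIso e ≪≫ rotIso f⟩⟩

lemma distTri_shift (X : Triangle (T P)) (hX : X ∈ distTri P) (n : ℤ) :
    (Triangle.shiftFunctor _ n).obj X ∈ distTri P := by
  obtain ⟨A, B, f, ⟨e⟩⟩ := hX
  exact ⟨_, _, _, ⟨Functor.mapIso _ e ≪≫ shConeTriTIso n f⟩⟩

lemma distTri_invRotate' (X : Triangle (T P)) (hX : X ∈ distTri P) :
    X.invRotate ∈ distTri P :=
  distTri_iso _ (distTri_shift _ (distTri_rotate' _ (distTri_rotate' _ hX)) _) _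
    ((invRotateIsoRotateRotateShiftFunctorNegOne _).app X)

lemma distTri_rotate (X : Triangle (T P)) : X ∈ distTri P ↔ X.rotate ∈ distTri P := by
  constructor
  · exact distTri_rotate' X
  · intro hX
    exact distTri_iso _ (distTri_invRotate' X.rotate hX) _ ((triangleRotation _).unitIso.app X)

lemma coneTriT_complete {A₁ B₁ A₂ B₂ : DG P} (f₁ : A₁ ⟶ B₁) (f₂ : A₂ ⟶ B₂)
    (a : (Q.obj A₁ : T P) ⟶ Q.obj A₂) (b : (Q.obj B₁ : T P) ⟶ Q.obj B₂)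
    (fac : Q.map f₁ ≫ b = a ≫ Q.map f₂) :
    ∃ γ : coneTriT f₁ ⟶ coneTriT f₂, γ.hom₁ = a ∧ γ.hom₂ = b := by
  obtain ⟨a, rfl⟩ := (Q : DG P ⥤ T P).map_surjective a
  obtain ⟨b, rfl⟩ := (Q : DG P ⥤ T P).map_surjective b
  have H : Homotopic (f₁ ≫ b) (a ≫ f₂) := by
    rw [← Q_map_eq_iff, Q.map_comp, Q.map_comp, fac]
  obtain ⟨h, hh, e⟩ := H
  exact ⟨coneTriMap a b h hh e, rfl, rfl⟩

lemma distTri_complete (X Y : Triangle (T P)) (hX : X ∈ distTri P) (hY : Y ∈ distTri P)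
    (a : X.obj₁ ⟶ Y.obj₁) (b : X.obj₂ ⟶ Y.obj₂) (fac : X.mor₁ ≫ b = a ≫ Y.mor₁) :
    ∃ c : X.obj₃ ⟶ Y.obj₃, X.mor₂ ≫ c = b ≫ Y.mor₂ ∧
      X.mor₃ ≫ a⟦(1 : ℤ)⟧' = c ≫ Y.mor₃ := by
  obtain ⟨A₁, B₁, f₁, ⟨e₁⟩⟩ := hX
  obtain ⟨A₂, B₂, f₂, ⟨e₂⟩⟩ := hY
  have comm₁₁ := e₁.inv.comm₁
  have comm₁₂ := e₂.hom.comm₁
  obtain ⟨γ₀, h1, h2⟩ := coneTriT_complete f₁ f₂ (e₁.inv.hom₁ ≫ a ≫ e₂.hom.hom₁)
    (e₁.inv.hom₂ ≫ b ≫ e₂.hom.hom₂) (by
      change (coneTriT f₁).mor₁ ≫ e₁.inv.hom₂ ≫ b ≫ e₂.hom.hom₂ =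
        (e₁.inv.hom₁ ≫ a ≫ e₂.hom.hom₁) ≫ (coneTriT f₂).mor₁
      rw [reassoc_of% comm₁₁, reassoc_of% fac, comm₁₂, Category.assoc, Category.assoc])
  let γ : X ⟶ Y := e₁.hom ≫ γ₀ ≫ e₂.inv
  have comm₂ := γ.comm₂
  have comm₃ := γ.comm₃
  have h1' : γ₀.hom₁ = e₁.inv.hom₁ ≫ a ≫ e₂.hom.hom₁ := h1
  have h2' : γ₀.hom₂ = e₁.inv.hom₂ ≫ b ≫ e₂.hom.hom₂ := h2
  have h1 : γ.hom₁ = a := by
    change e₁.hom.hom₁ ≫ γ₀.hom₁ ≫ e₂.inv.hom₁ = a
    rw [h1']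
    simp
  have h2 : γ.hom₂ = b := by
    change e₁.hom.hom₂ ≫ γ₀.hom₂ ≫ e₂.inv.hom₂ = b
    rw [h2']
    simp
  rw [h2] at comm₂
  rw [h1] at comm₃
  exact ⟨γ.hom₃, comm₂, comm₃⟩

noncomputable instance : Pretriangulated (T P) where
  distinguishedTriangles := distTri P
  isomorphic_distinguished := distTri_iso
  contractible_distinguished := distTri_contractible
  distinguished_cocone_triangle := distTri_cocone
  rotate_distinguished_triangle := distTri_rotate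
  complete_distinguished_triangle_morphism := distTri_complete

lemma coneTriT_distinguished {A B : DG P} (f : A ⟶ B) :
    coneTriT f ∈ distTriang (T P) := ⟨_, _, f, ⟨Iso.refl _⟩⟩

end T

namespace DG

variable {A B C D : DG P}

/-! ### The octahedron -/

section oct

variable (f : A ⟶ B) (g : B ⟶ C)

/-- `cone f ⟶ cone (f ≫ g)`. -/
noncomputable def octA : cone f ⟶ cone (f ≫ g) :=
  coneMap (f₁ := f) (f₂ := f ≫ g) (𝟙 A) g 0 Homog.zero (by simp)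

/-- `cone (f ≫ g) ⟶ cone g`. -/
noncomputable def octB : cone (f ≫ g) ⟶ cone g :=
  coneMap (f₁ := f ≫ g) (f₂ := g) f (𝟙 C) 0 Homog.zero (by simp)

lemma octA_f : (octA f g).f = fst A.F B.F ≫ inl A.F C.F + snd A.F B.F ≫ g.f ≫ inr A.F C.F := by
  change fst A.F B.F ≫ 𝟙 A.F ≫ inl A.F C.F + snd A.F B.F ≫ g.f ≫ inr A.F C.F
    + fst A.F B.F ≫ (0 : A.F ⟶ C.F) ≫ inr A.F C.F = _
  simp

lemma octB_f : (octB f g).f = fst A.F C.F ≫ f.f ≫ inl B.F C.F + snd A.F C.F ≫ inr B.F C.F := by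
  change fst A.F C.F ≫ f.f ≫ inl B.F C.F + snd A.F C.F ≫ 𝟙 C.F ≫ inr B.F C.F
    + fst A.F C.F ≫ (0 : A.F ⟶ C.F) ≫ inr B.F C.F = _
  simp

/-- Degrees of the cone of `octA`. -/
def octDeg (A B C : DG P) : (A.F.ι ⊕ B.F.ι) ⊕ (A.F.ι ⊕ C.F.ι) → ℤ :=
  Sum.elim (fun i => coneDeg A B i - 1) (coneDeg A C)

/-- The matrix of the differential of the cone of `octA`. -/
noncomputable def octD : Fam.sum (Fam.sum A.F B.F) (Fam.sum A.F C.F) ⟶
    Fam.sum (Fam.sum A.F B.F) (Fam.sum A.F C.F) :=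
  cD (cD A.d B.d f.f) (cD A.d C.d (f.f ≫ g.f))
    (fst A.F B.F ≫ inl A.F C.F + snd A.F B.F ≫ g.f ≫ inr A.F C.F)

lemma cone_octA_d : (cone (octA f g)).d = octD f g := by
  rw [cone_d, octA_f]
  rfl

/-- The comparison map `cone g ⟶ cone (cone f ⟶ cone (f ≫ g))`. -/
noncomputable def octHom : cone g ⟶ cone (octA f g) where
  f := fst B.F C.F ≫ inr A.F B.F ≫ inl (Fam.sum A.F B.F) (Fam.sum A.F C.F) +
    snd B.F C.F ≫ inr A.F C.F ≫ inr (Fam.sum A.F B.F) (Fam.sum A.F C.F)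
  hf := by
    have h1 : Homog (F := Fam.sum B.F C.F) (coneDeg B C) B.deg 1 (fst B.F C.F) :=
      fst_homog fun i => by ring
    have h2 : Homog (F := Fam.sum B.F C.F) (coneDeg B C) C.deg 0 (snd B.F C.F) :=
      snd_homog fun i => by ring
    have h3 : Homog (G := Fam.sum A.F B.F) B.deg (coneDeg A B) 0 (inr A.F B.F) :=
      inr_homog fun i => by ring
    have h4 : Homog (G := Fam.sum A.F C.F) C.deg (coneDeg A C) 0 (inr A.F C.F) :=
      inr_homog fun i => by ring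
    have h5 : Homog (G := Fam.sum (Fam.sum A.F B.F) (Fam.sum A.F C.F)) (coneDeg A B)
      (octDeg A B C) (-1) (inl (Fam.sum A.F B.F) (Fam.sum A.F C.F)) :=
      inl_homog (F := Fam.sum A.F B.F) (G := Fam.sum A.F C.F) fun i => by ring
    have h6 : Homog (G := Fam.sum (Fam.sum A.F B.F) (Fam.sum A.F C.F)) (coneDeg A C)
      (octDeg A B C) 0 (inr (Fam.sum A.F B.F) (Fam.sum A.F C.F)) :=
      inr_homog (F := Fam.sum A.F B.F) (G := Fam.sum A.F C.F) fun i => by ring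
    exact (h1.comp' (h3.comp h5) (by norm_num)).add (h2.comp' (h4.comp h6) (by norm_num))
  comm := by
    rw [cone_octA_d]
    change cD B.d C.d g.f ≫ (fst B.F C.F ≫ inr A.F B.F ≫ inl (Fam.sum A.F B.F) (Fam.sum A.F C.F) +
      snd B.F C.F ≫ inr A.F C.F ≫ inr (Fam.sum A.F B.F) (Fam.sum A.F C.F)) =
      (fst B.F C.F ≫ inr A.F B.F ≫ inl (Fam.sum A.F B.F) (Fam.sum A.F C.F) +
      snd B.F C.F ≫ inr A.F C.F ≫ inr (Fam.sum A.F B.F) (Fam.sum A.F C.F)) ≫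
      cD (cD A.d B.d f.f) (cD A.d C.d (f.f ≫ g.f))
        (fst A.F B.F ≫ inl A.F C.F + snd A.F B.F ≫ g.f ≫ inr A.F C.F)
    apply sum_ext
    · simp
    · simp

/-- The comparison map backwards. -/
noncomputable def octInv : cone (octA f g) ⟶ cone g where
  f := fst (Fam.sum A.F B.F) (Fam.sum A.F C.F) ≫ snd A.F B.F ≫ inl B.F C.F +
    snd (Fam.sum A.F B.F) (Fam.sum A.F C.F) ≫ (fst A.F C.F ≫ f.f ≫ inl B.F C.F +
      snd A.F C.F ≫ inr B.F C.F)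
  hf := by
    have h1 : Homog (F := Fam.sum A.F B.F) (coneDeg A B) B.deg 0 (snd A.F B.F) :=
      snd_homog fun i => by ring
    have h2 : Homog (F := Fam.sum A.F C.F) (coneDeg A C) C.deg 0 (snd A.F C.F) :=
      snd_homog fun i => by ring
    have h2' : Homog (F := Fam.sum A.F C.F) (coneDeg A C) A.deg 1 (fst A.F C.F) :=
      fst_homog fun i => by ring
    have h3 : Homog (G := Fam.sum B.F C.F) B.deg (coneDeg B C) (-1) (inl B.F C.F) :=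
      inl_homog fun i => by ring
    have h4 : Homog (G := Fam.sum B.F C.F) C.deg (coneDeg B C) 0 (inr B.F C.F) :=
      inr_homog fun i => by ring
    have h5 : Homog (F := Fam.sum (Fam.sum A.F B.F) (Fam.sum A.F C.F)) (octDeg A B C)
      (coneDeg A B) 1 (fst (Fam.sum A.F B.F) (Fam.sum A.F C.F)) :=
      fst_homog (F := Fam.sum A.F B.F) (G := Fam.sum A.F C.F) fun i => by ring
    have h6 : Homog (F := Fam.sum (Fam.sum A.F B.F) (Fam.sum A.F C.F)) (octDeg A B C)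
      (coneDeg A C) 0 (snd (Fam.sum A.F B.F) (Fam.sum A.F C.F)) :=
      snd_homog (F := Fam.sum A.F B.F) (G := Fam.sum A.F C.F) fun i => by ring
    exact (h5.comp' (h1.comp h3) (by norm_num)).add (h6.comp' (k := 0) ((h2'.comp' (k := 0)
      (f.hf.comp h3) (by norm_num)).add (h2.comp' h4 (by norm_num))) (by norm_num))
  comm := by
    rw [cone_octA_d]
    change cD (cD A.d B.d f.f) (cD A.d C.d (f.f ≫ g.f))
        (fst A.F B.F ≫ inl A.F C.F + snd A.F B.F ≫ g.f ≫ inr A.F C.F) ≫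
      (fst (Fam.sum A.F B.F) (Fam.sum A.F C.F) ≫ snd A.F B.F ≫ inl B.F C.F +
    snd (Fam.sum A.F B.F) (Fam.sum A.F C.F) ≫ (fst A.F C.F ≫ f.f ≫ inl B.F C.F +
      snd A.F C.F ≫ inr B.F C.F)) = (fst (Fam.sum A.F B.F) (Fam.sum A.F C.F) ≫ snd A.F B.F ≫
        inl B.F C.F + snd (Fam.sum A.F B.F) (Fam.sum A.F C.F) ≫ (fst A.F C.F ≫ f.f ≫ inl B.F C.F +
      snd A.F C.F ≫ inr B.F C.F)) ≫ cD B.d C.d g.f
    apply sum_ext
    · apply sum_ext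
      · simp
      · simp
    · apply sum_ext
      · simp [comm_assoc f]
      · simp

lemma octHom_octInv : octHom f g ≫ octInv f g = 𝟙 _ := by
  apply DG.hom_ext
  change (fst B.F C.F ≫ inr A.F B.F ≫ inl (Fam.sum A.F B.F) (Fam.sum A.F C.F) +
      snd B.F C.F ≫ inr A.F C.F ≫ inr (Fam.sum A.F B.F) (Fam.sum A.F C.F)) ≫
      (fst (Fam.sum A.F B.F) (Fam.sum A.F C.F) ≫ snd A.F B.F ≫ inl B.F C.F +
    snd (Fam.sum A.F B.F) (Fam.sum A.F C.F) ≫ (fst A.F C.F ≫ f.f ≫ inl B.F C.F +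
      snd A.F C.F ≫ inr B.F C.F)) = 𝟙 (Fam.sum B.F C.F)
  apply sum_ext
  · simp
  · simp

lemma octInv_octHom : Homotopic (octInv f g ≫ octHom f g) (𝟙 _) := by
  refine ⟨-(snd (Fam.sum A.F B.F) (Fam.sum A.F C.F) ≫ fst A.F C.F ≫ inl A.F B.F ≫
    inl (Fam.sum A.F B.F) (Fam.sum A.F C.F)), ?_, ?_⟩
  · have h2' : Homog (F := Fam.sum A.F C.F) (coneDeg A C) A.deg 1 (fst A.F C.F) :=
      fst_homog fun i => by ring
    have h3 : Homog (G := Fam.sum A.F B.F) A.deg (coneDeg A B) (-1) (inl A.F B.F) :=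
      inl_homog fun i => by ring
    have h5 : Homog (G := Fam.sum (Fam.sum A.F B.F) (Fam.sum A.F C.F)) (coneDeg A B)
      (octDeg A B C) (-1) (inl (Fam.sum A.F B.F) (Fam.sum A.F C.F)) :=
      inl_homog (F := Fam.sum A.F B.F) (G := Fam.sum A.F C.F) fun i => by ring
    have h6 : Homog (F := Fam.sum (Fam.sum A.F B.F) (Fam.sum A.F C.F)) (octDeg A B C)
      (coneDeg A C) 0 (snd (Fam.sum A.F B.F) (Fam.sum A.F C.F)) :=
      snd_homog (F := Fam.sum A.F B.F) (G := Fam.sum A.F C.F) fun i => by ring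
    exact (h6.comp' (h2'.comp (h3.comp h5)) (by norm_num)).neg
  · rw [cone_octA_d]
    change (fst (Fam.sum A.F B.F) (Fam.sum A.F C.F) ≫ snd A.F B.F ≫ inl B.F C.F +
      snd (Fam.sum A.F B.F) (Fam.sum A.F C.F) ≫ (fst A.F C.F ≫ f.f ≫ inl B.F C.F +
      snd A.F C.F ≫ inr B.F C.F)) ≫ (fst B.F C.F ≫ inr A.F B.F ≫
        inl (Fam.sum A.F B.F) (Fam.sum A.F C.F) +
      snd B.F C.F ≫ inr A.F C.F ≫ inr (Fam.sum A.F B.F) (Fam.sum A.F C.F)) =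
      𝟙 (Fam.sum (Fam.sum A.F B.F) (Fam.sum A.F C.F)) +
      cD (cD A.d B.d f.f) (cD A.d C.d (f.f ≫ g.f))
        (fst A.F B.F ≫ inl A.F C.F + snd A.F B.F ≫ g.f ≫ inr A.F C.F) ≫
      (-(snd (Fam.sum A.F B.F) (Fam.sum A.F C.F) ≫ fst A.F C.F ≫ inl A.F B.F ≫
        inl (Fam.sum A.F B.F) (Fam.sum A.F C.F))) +
      (-(snd (Fam.sum A.F B.F) (Fam.sum A.F C.F) ≫ fst A.F C.F ≫ inl A.F B.F ≫
        inl (Fam.sum A.F B.F) (Fam.sum A.F C.F))) ≫ cD (cD A.d B.d f.f) (cD A.d C.d (f.f ≫ g.f))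
        (fst A.F B.F ≫ inl A.F C.F + snd A.F B.F ≫ g.f ≫ inr A.F C.F)
    apply sum_ext
    · apply sum_ext
      · simp
      · simp
    · apply sum_ext
      · simp
        abel
      · simp

lemma octHom_cfst : octHom f g ≫ cfst (octA f g) = cfst g ≫ (cinr f)⟦(1 : ℤ)⟧' := by
  apply DG.hom_ext
  change (fst B.F C.F ≫ inr A.F B.F ≫ inl (Fam.sum A.F B.F) (Fam.sum A.F C.F) +
      snd B.F C.F ≫ inr A.F C.F ≫ inr (Fam.sum A.F B.F) (Fam.sum A.F C.F)) ≫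
      fst (Fam.sum A.F B.F) (Fam.sum A.F C.F) = fst B.F C.F ≫ inr A.F B.F
  simp

lemma cinr_octInv : cinr (octA f g) ≫ octInv f g = octB f g := by
  apply DG.hom_ext
  rw [octB_f]
  change inr (Fam.sum A.F B.F) (Fam.sum A.F C.F) ≫
    (fst (Fam.sum A.F B.F) (Fam.sum A.F C.F) ≫ snd A.F B.F ≫ inl B.F C.F +
    snd (Fam.sum A.F B.F) (Fam.sum A.F C.F) ≫ (fst A.F C.F ≫ f.f ≫ inl B.F C.F +
      snd A.F C.F ≫ inr B.F C.F)) = _
  simp

/-- The octahedral triangle. -/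
noncomputable def octTri : Triangle (DG P) :=
  Triangle.mk (octA f g) (octB f g) (cfst g ≫ (cinr f)⟦(1 : ℤ)⟧')

lemma octTri_distinguished : T.Q.mapTriangle.obj (octTri f g) ∈ distTriang (T P) := by
  refine ⟨_, _, octA f g, ⟨?_⟩⟩
  refine Triangle.isoMk _ _ (Iso.refl _) (Iso.refl _) (T.isoMk (octHom f g) (octInv f g)
    (Homotopic.of_eq (octHom_octInv f g)) (octInv_octHom f g)) ?_ ?_ ?_
  · change T.Q.map (octA f g) ≫ 𝟙 _ = 𝟙 _ ≫ T.Q.map (octA f g)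
    simp
  · change T.Q.map (octB f g) ≫ T.Q.map (octHom f g) = 𝟙 _ ≫ T.Q.map (cinr (octA f g))
    rw [← cinr_octInv, ← T.Q.map_comp, Category.id_comp, T.Q_map_eq_iff, Category.assoc]
    have h := octInv_octHom f g
    have := HomRel.comp_left (r := homRel P) (cinr (octA f g)) h
    rwa [Category.comp_id] at this
  · change (T.Q.map (cfst g ≫ (cinr f)⟦(1 : ℤ)⟧') ≫ (T.Q.commShiftIso (1 : ℤ)).hom.app _) ≫
      (𝟙 (T.Q.obj (cone f)))⟦(1 : ℤ)⟧' = T.Q.map (octHom f g) ≫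
        T.Q.map (cfst (octA f g)) ≫ (T.Q.commShiftIso (1 : ℤ)).hom.app _
    rw [CategoryTheory.Functor.map_id, ← T.Q.map_comp_assoc, octHom_cfst]
    exact Category.comp_id _

end oct

end DG

namespace T

noncomputable instance : IsTriangulated (T P) :=
  IsTriangulated.mk' (by
    rintro ⟨X₁ : DG P⟩ ⟨X₂ : DG P⟩ ⟨X₃ : DG P⟩ u₁₂' u₂₃'
    obtain ⟨u₁₂, rfl⟩ := (Q : DG P ⥤ T P).map_surjective u₁₂'
    obtain ⟨u₂₃, rfl⟩ := (Q : DG P ⥤ T P).map_surjective u₂₃'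
    refine ⟨Q.obj X₁, Q.obj X₂, Q.obj X₃, Q.obj (cone u₁₂), Q.obj (cone u₂₃),
      Q.obj (cone (u₁₂ ≫ u₂₃)), Q.map u₁₂, Q.map u₂₃, Iso.refl _, Iso.refl _, Iso.refl _,
      (Category.comp_id _).trans (Category.id_comp _).symm,
      (Category.comp_id _).trans (Category.id_comp _).symm,
      Q.map (cinr u₁₂), Q.map (cfst u₁₂) ≫ (Q.commShiftIso (1 : ℤ)).hom.app X₁,
      coneTriT_distinguished u₁₂,
      Q.map (cinr u₂₃), Q.map (cfst u₂₃) ≫ (Q.commShiftIso (1 : ℤ)).hom.app X₂,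
      coneTriT_distinguished u₂₃,
      Q.map (cinr (u₁₂ ≫ u₂₃)),
      Q.map (cfst (u₁₂ ≫ u₂₃)) ≫ (Q.commShiftIso (1 : ℤ)).hom.app X₁,
      coneTriT_distinguished (u₁₂ ≫ u₂₃), ⟨?_⟩⟩
    refine Triangulated.Octahedron.mk (Q.map (octA u₁₂ u₂₃)) (Q.map (octB u₁₂ u₂₃)) ?_ ?_ ?_ ?_ ?_
    · rw [← Q.map_comp, ← Q.map_comp]
      congr 1
      apply DG.hom_ext
      rw [comp_f, octA_f]
      change inr X₁.F X₂.F ≫ _ = u₂₃.f ≫ inr X₁.F X₃.F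
      simp
    · rw [← Q.map_comp_assoc]
      congr 2
      apply DG.hom_ext
      rw [comp_f, octA_f]
      change _ ≫ fst X₁.F X₃.F = fst X₁.F X₂.F
      simp
    · rw [← Q.map_comp]
      congr 1
      apply DG.hom_ext
      rw [comp_f, octB_f]
      change inr X₁.F X₃.F ≫ _ = inr X₂.F X₃.F
      simp
    · have h1 := Q.commShiftIso_hom_naturality u₁₂ (1 : ℤ)
      rw [Category.assoc, ← h1, ← Q.map_comp_assoc, ← Q.map_comp_assoc]
      congr 2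
      apply DG.hom_ext
      rw [comp_f, comp_f, octB_f]
      change fst X₁.F X₃.F ≫ u₁₂.f = _ ≫ fst X₂.F X₃.F
      simp
    · have h := octTri_distinguished u₁₂ u₂₃
      have h1 := Q.commShiftIso_hom_naturality (cinr u₁₂) (1 : ℤ)
      rw [Category.assoc, ← h1, ← Q.map_comp_assoc]
      exact h)

end T

end Pool.Agent.H75.TT
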