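import Mathlib

/-!
Tensor-triangular geometry: rigidly-compactly generated tt-categories, the Balmer spectrum,
Thomason subsets, Balmer-Favi idempotents, localizing ideals, stratification,
geometric functors.
-/

open CategoryTheory CategoryTheory.Limits CategoryTheory.Pretriangulated MonoidalCategory
open scoped DirectSum

universe u

namespace Pool.Agent.H75.TT

section compact

variable {C : Type (u+1)} [Category.{u} C] [Preadditive C] [HasCoproducts.{u} C]

/-- The canonical map `⨁ Hom(X, Y j) → Hom(X, ∐ Y)`. -/
noncomputable def sumMap (X : C) {J : Type u} (Y : J → C) : (⨁ j, (X ⟶ Y j)) →+ (X ⟶ ∐ Y) := by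
  classical
  exact DirectSum.toAddMonoid fun j => (Preadditive.rightComp X (Sigma.ι Y j))

/-- Compact objects: `Hom(X, -)` commutes with small coproducts. -/
def IsCpt (X : C) : Prop := ∀ (J : Type u) (Y : J → C), Function.Bijective (sumMap X Y)

end compact

section exactness

/-- An exact functor of triangulated categories: it can be made to commute with the shift
so that it sends distinguished triangles to distinguished triangles. -/
def IsExactFun {C D : Type*} [Category* C] [Category* D] [HasZeroObject C] [HasZeroObject D]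
    [HasShift C ℤ] [HasShift D ℤ] [Preadditive C] [Preadditive D]
    [∀ n : ℤ, (shiftFunctor C n).Additive] [∀ n : ℤ, (shiftFunctor D n).Additive]
    [Pretriangulated C] [Pretriangulated D] (F : C ⥤ D) : Prop :=
  ∃ _ : F.CommShift ℤ, F.IsTriangulated

end exactness

/-- A rigidly-compactly generated tensor-triangulated category: a triangulated category with small
coproducts, generated by a small set of compact objects, with a closed symmetric monoidal
structure whose tensor product is exact and coproduct-preserving in each variable, such that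
the compact objects are exactly the rigid (dualizable) ones. -/
class RigidlyCompactlyGenerated (C : Type (u+1)) [Category.{u} C] [Preadditive C]
    [HasZeroObject C] [HasShift C ℤ] [∀ n : ℤ, (shiftFunctor C n).Additive] [Pretriangulated C]
    [IsTriangulated C] [HasCoproducts.{u} C] [MonoidalCategory C] [SymmetricCategory C]
    [MonoidalClosed C] : Prop where
  exact_left : ∀ X : C, IsExactFun (tensorLeft X)
  exact_right : ∀ X : C, IsExactFun (tensorRight X)
  coprod_left : ∀ (X : C) (J : Type u), PreservesColimitsOfShape (Discrete J) (tensorLeft X)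
  coprod_right : ∀ (X : C) (J : Type u), PreservesColimitsOfShape (Discrete J) (tensorRight X)
  generated : ∃ (J : Type u) (G : J → C), (∀ j, IsCpt (G j)) ∧
    ∀ Y : C, (∀ (j : J) (n : ℤ) (f : (G j)⟦n⟧ ⟶ Y), f = 0) → IsZero Y
  compact_iff_rigid : ∀ X : C, IsCpt X ↔ Nonempty (HasRightDual X)

section geometry

variable (C : Type (u+1)) [Category.{u} C] [Preadditive C]
    [HasZeroObject C] [HasShift C ℤ] [∀ n : ℤ, (shiftFunctor C n).Additive] [Pretriangulated C]
    [HasCoproducts.{u} C] [MonoidalCategory C]

/-- The Balmer spectrum of the compact part of `C`: prime thick tensor ideals of compact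
objects. -/
@[ext]
structure Spc where
  mem : C → Prop
  compact : ∀ {x}, mem x → IsCpt x
  iso : ∀ {x y}, mem x → Nonempty (x ≅ y) → mem y
  zero : ∀ {x}, IsZero x → mem x
  shift : ∀ {x} (n : ℤ), mem x → mem (x⟦n⟧)
  triangle : ∀ {T : Triangle C}, T ∈ distTriang C → mem T.obj₁ → mem T.obj₂ → mem T.obj₃
  retract : ∀ {x y}, Nonempty (Retract x y) → mem y → mem x
  ideal : ∀ {x y}, IsCpt x → mem y → mem (x ⊗ y)
  ne_top : ¬ mem (𝟙_ C)
  prime : ∀ {x y}, IsCpt x → IsCpt y → mem (x ⊗ y) → mem x ∨ mem y

variable {C}

/-- The support of a compact object. -/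
def supp (x : C) : Set (Spc C) := {P | ¬ P.mem x}

/-- The Zariski topology: the supports of compact objects form a basis of closed sets. -/
instance : TopologicalSpace (Spc C) :=
  TopologicalSpace.generateFrom {U | ∃ x : C, IsCpt x ∧ U = (supp x)ᶜ}

/-- Thomason subsets: unions of closed subsets with quasi-compact complement. -/
def IsThomason (Y : Set (Spc C)) : Prop :=
  ∃ S : Set (Set (Spc C)), (∀ Z ∈ S, IsClosed Z ∧ IsCompact Zᶜ) ∧ Y = ⋃₀ S

variable (C) in
/-- The spectrum is weakly noetherian. -/
def WeaklyNoetherian : Prop :=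
  ∀ P : Spc C, ∃ Y Z : Set (Spc C), IsThomason Y ∧ IsThomason Z ∧ {P} = Y ∩ Zᶜ

/-- Localizing tensor ideals. -/
structure IsLocIdeal (L : C → Prop) : Prop where
  iso : ∀ {x y}, L x → Nonempty (x ≅ y) → L y
  zero : ∀ {x}, IsZero x → L x
  shift : ∀ {x} (n : ℤ), L x → L (x⟦n⟧)
  triangle : ∀ {T : Triangle C}, T ∈ distTriang C → L T.obj₁ → L T.obj₂ → L T.obj₃
  coprod : ∀ {J : Type u} (x : J → C), (∀ j, L (x j)) → L (∐ x)
  ideal : ∀ {x y}, L y → L (x ⊗ y)

/-- The localizing tensor ideal generated by a class of objects. -/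
def LocIdeal (S : C → Prop) : C → Prop :=
  fun x => ∀ L : C → Prop, IsLocIdeal L → (∀ s, S s → L s) → L x

/-- The localizing tensor ideal generated by an object. -/
def LocId (t : C) : C → Prop := LocIdeal (fun s => s = t)

/-- `e → 𝟙 → f → e⟦1⟧` is the idempotent triangle attached to the (Thomason) subset `Y`:
`e` is in the localizing ideal generated by the compact objects with support in `Y`, and there
are no nonzero maps from shifts of such objects to `f`. -/
def IsIdemTriangle (Y : Set (Spc C)) (e f : C) : Prop :=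
  ∃ (a : e ⟶ 𝟙_ C) (b : 𝟙_ C ⟶ f) (c : f ⟶ e⟦(1 : ℤ)⟧), Triangle.mk a b c ∈ distTriang C ∧
    LocIdeal (fun x => IsCpt x ∧ supp x ⊆ Y) e ∧
    ∀ x : C, IsCpt x → supp x ⊆ Y → ∀ (n : ℤ) (g : x⟦n⟧ ⟶ f), g = 0

/-- `g` is the Balmer-Favi idempotent `e_Y ⊗ f_Z` of the point `P`, where `{P} = Y ∩ Zᶜ` with
`Y` and `Z` Thomason. -/
def IsBalmerFavi (P : Spc C) (g : C) : Prop :=
  ∃ (Y Z : Set (Spc C)) (e f e' f' : C), IsThomason Y ∧ IsThomason Z ∧ {P} = Y ∩ Zᶜ ∧
    IsIdemTriangle Y e f ∧ IsIdemTriangle Z e' f' ∧ Nonempty (g ≅ e ⊗ f')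

/-- A minimal nonzero localizing tensor ideal. -/
def IsMinimalLoc (L : C → Prop) : Prop :=
  (∃ x, L x ∧ ¬ IsZero x) ∧
    ∀ L' : C → Prop, IsLocIdeal L' → (∀ x, L' x → L x) → (∃ x, L' x ∧ ¬ IsZero x) →
      ∀ x, L x → L' x

/-- The local-to-global principle for a family of idempotents. -/
def LocalToGlobal (g : Spc C → C) : Prop :=
  ∀ t : C, LocId t = LocIdeal (fun s => ∃ P : Spc C, s = g P ⊗ t)

variable (C) in
/-- Stratification: Balmer-Favi idempotents exist at all points, the local-to-global principle
holds and the localizing ideals generated by the idempotents are minimal. -/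
def Stratified : Prop :=
  (∃ g : Spc C → C, ∀ P, IsBalmerFavi P (g P)) ∧
    ∀ g : Spc C → C, (∀ P, IsBalmerFavi P (g P)) →
      LocalToGlobal g ∧ ∀ P, IsMinimalLoc (LocId (g P))

end geometry

/-- A bundled rigidly-compactly generated tensor-triangulated category. -/
structure BigTT where
  C : Type (u+1)
  [cat : Category.{u} C]
  [pre : Preadditive C]
  [zero : HasZeroObject C]
  [shift : HasShift C ℤ]
  [shiftAdd : ∀ n : ℤ, (shiftFunctor C n).Additive]
  [pretri : Pretriangulated C]
  [tri : IsTriangulated C]
  [coprod : HasCoproducts.{u} C]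
  [mon : MonoidalCategory C]
  [sym : SymmetricCategory C]
  [closed : MonoidalClosed C]
  [rcg : RigidlyCompactlyGenerated C]

attribute [instance] BigTT.cat BigTT.pre BigTT.zero BigTT.shift BigTT.shiftAdd BigTT.pretri
  BigTT.tri BigTT.coprod BigTT.mon BigTT.sym BigTT.closed BigTT.rcg

/-- A geometric functor: exact, strong symmetric monoidal, coproduct-preserving. -/
structure GeomFunctor (S T : BigTT.{u}) where
  F : S.C ⥤ T.C
  [braided : F.Braided]
  exact : IsExactFun F
  coprod : ∀ J : Type u, PreservesColimitsOfShape (Discrete J) F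

/-- A conservative functor: it detects zero objects. -/
def GeomFunctor.Conservative {S T : BigTT.{u}} (F : GeomFunctor S T) : Prop :=
  ∀ t : S.C, IsZero (F.F.obj t) → IsZero t

end Pool.Agent.H75.TT
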