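import Mathlib

/-!
Tensor subcategories given by subgroups of morphisms, weight structures, perfect pairings.
Definitions only.
-/

open CategoryTheory CategoryTheory.Limits MonoidalCategory

namespace Pool.Agent.H75.TT

/-- A wide tensor subcategory (subgroups of the Hom groups) containing all structure
isomorphisms and closed under duals. -/
structure TensorSub (C : Type) [Category.{0} C] [Preadditive C] [MonoidalCategory C]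
    [SymmetricCategory C] where
  S : ∀ X Y : C, AddSubgroup (X ⟶ Y)
  id_mem : ∀ X, 𝟙 X ∈ S X X
  comp_mem : ∀ {X Y Z : C} {f : X ⟶ Y} {g : Y ⟶ Z}, f ∈ S X Y → g ∈ S Y Z → f ≫ g ∈ S X Z
  tensor_mem : ∀ {X Y X' Y' : C} {f : X ⟶ Y} {g : X' ⟶ Y'}, f ∈ S X Y → g ∈ S X' Y' →
    f ⊗ₘ g ∈ S (X ⊗ X') (Y ⊗ Y')
  assoc_hom_mem : ∀ X Y Z : C, (α_ X Y Z).hom ∈ S _ _
  assoc_inv_mem : ∀ X Y Z : C, (α_ X Y Z).inv ∈ S _ _
  left_hom_mem : ∀ X : C, (λ_ X).hom ∈ S _ _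
  left_inv_mem : ∀ X : C, (λ_ X).inv ∈ S _ _
  right_hom_mem : ∀ X : C, (ρ_ X).hom ∈ S _ _
  right_inv_mem : ∀ X : C, (ρ_ X).inv ∈ S _ _
  braid_hom_mem : ∀ X Y : C, (β_ X Y).hom ∈ S _ _
  braid_inv_mem : ∀ X Y : C, (β_ X Y).inv ∈ S _ _
  dual_mem : ∀ X : C, ∃ (Y : C) (e : ExactPairing X Y),
    e.coevaluation' ∈ S (𝟙_ C) (X ⊗ Y) ∧ e.evaluation' ∈ S (Y ⊗ X) (𝟙_ C)

/-- A weight structure: each Hom group is a finite direct sum of weight parts; composition and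
tensor product are additive in the weights; `C0` is a tensor subcategory of weight zero. -/
structure Pinch (C : Type) [Category.{0} C] [Preadditive C] [MonoidalCategory C]
    [SymmetricCategory C] where
  w : ∀ {X Y : C} (_ : ℤ), (X ⟶ Y) →+ (X ⟶ Y)
  w_w : ∀ {X Y : C} (m m' : ℤ) (f : X ⟶ Y), w m (w m' f) = if m = m' then w m f else 0
  bd : C → C → ℕ
  w_bd : ∀ {X Y : C} (m : ℤ) (f : X ⟶ Y), (bd X Y : ℤ) < |m| → w m f = 0
  sum_w : ∀ {X Y : C} (f : X ⟶ Y), ∑ m ∈ Finset.Icc (-(bd X Y : ℤ)) (bd X Y), w m f = f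
  w_comp : ∀ {X Y Z : C} (a b : ℤ) (f : X ⟶ Y) (g : Y ⟶ Z),
    w (a + b) (w a f ≫ w b g) = w a f ≫ w b g
  w_tensor : ∀ {X Y X' Y' : C} (a b : ℤ) (f : X ⟶ Y) (g : X' ⟶ Y'),
    w (a + b) (w a f ⊗ₘ w b g) = w a f ⊗ₘ w b g
  C0 : TensorSub C
  C0_w : ∀ {X Y : C} {f : X ⟶ Y}, f ∈ C0.S X Y → w 0 f = f

/-- Perfect pairing between `Hom(𝟙, X)` and `Hom(X, 𝟙)` over the field `k = End 𝟙`:
dual bases exist. -/
structure PerfPair (k : Type) [Field k] (C : Type) [Category.{0} C] [Preadditive C]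
    [Linear k C] [MonoidalCategory C] : Prop where
  one_ne : 𝟙 (𝟙_ C) ≠ 0
  end_one : ∀ c : 𝟙_ C ⟶ 𝟙_ C, ∃ a : k, c = a • 𝟙 (𝟙_ C)
  basis : ∀ X : C, ∃ (r : ℕ) (u : Fin r → (𝟙_ C ⟶ X)) (v : Fin r → (X ⟶ 𝟙_ C)),
    (∀ x : 𝟙_ C ⟶ X, x = ∑ i, (x ≫ v i) ≫ u i) ∧ (∀ y : X ⟶ 𝟙_ C, y = ∑ i, v i ≫ (u i ≫ y))

/-- The statement of Lemma L: the dimension count. -/
def LemL : Prop :=
  ∀ (E Ω : Type) [Fintype E] [DecidableEq E] [Fintype Ω] [DecidableEq Ω] (star : Ω)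
    (wt : E → Ω → ℤ) (act : Equiv.Perm Ω → Equiv.Perm E)
    (_ : ∀ (σ : Equiv.Perm Ω) (e : E) (i : Ω), wt (act σ e) (σ i) = wt e i)
    (N : ℕ) (_ : ∀ e, (Finset.univ.filter fun i => wt e i ≠ 0).card ≤ N)
    (_ : 2 * N < Fintype.card Ω)
    (D D0 H : Matrix E E ℝ) (_ : D * D = 0) (_ : D * H + H * D = 1)
    (_ : ∀ e e', D e e' ≠ 0 → wt e star ≤ wt e' star)
    (_ : ∀ e e', D0 e e' = if wt e star = wt e' star then D e e' else 0)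
    (_ : ∀ e e', D0 e e' ≠ 0 → wt e = wt e')
    (_ : ∀ (σ : Equiv.Perm Ω) (e e' : E), D0 (act σ e) (act σ e') = D0 e e'),
    IsUnit (D0 * D0.transpose + D0.transpose * D0)

end Pool.Agent.H75.TT
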