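import Pool.Agent.H75.TT.Defs

/-!
Statements of the two abstract theorems of tensor-triangular geometry used in the final
assembly (hypotheses only).
-/

open CategoryTheory CategoryTheory.Limits MonoidalCategory

universe u

namespace Pool.Agent.H75.TT

/-- A nonzero tt-category in which every nonzero map out of the unit is a split
monomorphism. -/
def FieldLike (K : BigTT.{u}) : Prop :=
  ¬ IsZero (𝟙_ K.C) ∧
    ∀ (G : K.C) (v : 𝟙_ K.C ⟶ G), v ≠ 0 → ∃ w : G ⟶ 𝟙_ K.C, v ≫ w = 𝟙 (𝟙_ K.C)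

/-- Data for the one-point theorem. -/
structure PinchPair (X K0 K2 : BigTT.{u}) (F0 : GeomFunctor X K0) (F2 : GeomFunctor X K2) :
    Prop where
  field0 : FieldLike K0
  field2 : FieldLike K2
  joint : ∀ t : X.C, IsZero (F0.F.obj t) → IsZero (F2.F.obj t) → IsZero t
  nak0 : ∀ t : X.C, IsCpt t → IsZero (F0.F.obj t) → IsZero t
  nak2 : ∀ t : X.C, IsCpt t → IsZero (F2.F.obj t) → IsZero t

/-- Data for the two-point theorem. -/
structure SplitPair (S K1 K2 : BigTT.{u}) (G1 : GeomFunctor S K1) (G2 : GeomFunctor S K2) :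
    Prop where
  field1 : FieldLike K1
  field2 : FieldLike K2
  full : ∀ (A B : S.C) (f1 : G1.F.obj A ⟶ G1.F.obj B) (f2 : G2.F.obj A ⟶ G2.F.obj B),
    ∃ f : A ⟶ B, G1.F.map f = f1 ∧ G2.F.map f = f2
  faithful : ∀ (A B : S.C) (f : A ⟶ B), G1.F.map f = 0 → G2.F.map f = 0 → f = 0

end Pool.Agent.H75.TT
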