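import Pool.Agent.H75.TT.Gen
import Pool.Agent.H75.TT.Abs
import Pool.Agent.H27.TT.Retract
import Pool.Agent.H27.TT.Rigid
import Pool.Agent.H35.TT.TMon
import Pool.Agent.H35.TT.TensEx
import Pool.Agent.H35.TT.TensCop
import Pool.Agent.H86.TT.MapMon
import Pool.Agent.H86.TT.MapTri
import Pool.Agent.H86.TT.MapCop
import Pool.Agent.H89.TT.ObjB

/-!
`T P` is a rigidly-compactly generated tt-category; functors `P ⥤ P'` induce geometric functors.
-/

open CategoryTheory CategoryTheory.Limits CategoryTheory.Pretriangulated MonoidalCategory

namespace Pool.Agent.H75.TT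

open Fam Pool.Agent.H47.TT Pool.Agent.H95.TT

/-- Every object has a dual. -/
class RigidP (P : Type) [Category.{0} P] [MonoidalCategory P] : Prop where
  dual : ∀ X : P, Nonempty (HasRightDual X)

section

variable {P : Type} [Category.{0} P] [Preadditive P] [MonoidalCategory P]
  [MonoidalPreadditive P] [SymmetricCategory P]

namespace T

theorem exact_left (B : T P) : IsExactFun (tensorLeft B) := T.isExactFun_tensorLeft B
theorem exact_right (B : T P) : IsExactFun (tensorRight B) := T.isExactFun_tensorRight B
theorem coprod_left (B : T P) (J : Type) :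
    PreservesColimitsOfShape (Discrete J) (tensorLeft B) := inferInstance
theorem coprod_right (B : T P) (J : Type) :
    PreservesColimitsOfShape (Discrete J) (tensorRight B) := inferInstance

lemma isCpt_unit : IsCpt (𝟙_ (T P)) := by
  have h : Finite Unit := inferInstance
  exact @isCpt_of_finite P _ _ (𝟙_ (DG P)) h

lemma isLeftAdjoint_tensorLeft (B : T P) : (tensorLeft B).IsLeftAdjoint := by
  obtain ⟨c, h⟩ := exact_left B
  have := coprod_left B
  exact isLeftAdjoint_of_exact (tensorLeft B) (fun X : P => (Q.obj (ofObj X) : T P))
    (fun X => isCpt_ofObj X) gens_ofObj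

noncomputable instance : MonoidalClosed (T P) where
  closed B :=
    have := isLeftAdjoint_tensorLeft B
    { rightAdj := (tensorLeft B).rightAdjoint
      adj := Adjunction.ofIsLeftAdjoint (tensorLeft B) }

instance [RigidP P] : RigidlyCompactlyGenerated (T P) where
  exact_left := exact_left
  exact_right := exact_right
  coprod_left := coprod_left
  coprod_right := coprod_right
  generated := ⟨P, fun X => Q.obj (ofObj X), fun X => isCpt_ofObj X, gens_ofObj⟩
  compact_iff_rigid X := by
    constructor
    · intro hX
      obtain ⟨A, hA, ⟨r⟩⟩ := exists_retract_finite hX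
      exact hasRightDual_of_retract (fun X e he => idem_split e he) r.i r.r r.retract
        (T.hasRightDual_of_finite RigidP.dual A)
    · intro hX
      exact isCpt_of_hasRightDual isCpt_unit (fun X J => coprod_right X J) hX

end T

variable (P) in
/-- The bundled tt-category `T P`. -/
noncomputable def BigT [RigidP P] : BigTT.{0} where
  C := T P

end

section map

variable {P P' : Type} [Category.{0} P] [Preadditive P] [MonoidalCategory P]
  [MonoidalPreadditive P] [SymmetricCategory P] [RigidP P]
  [Category.{0} P'] [Preadditive P'] [MonoidalCategory P']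
  [MonoidalPreadditive P'] [SymmetricCategory P'] [RigidP P']

/-- The geometric functor induced by an additive braided monoidal functor. -/
noncomputable def geomMap (Φ : P ⥤ P') [Φ.Additive] [Φ.Braided] :
    GeomFunctor (BigT P) (BigT P') where
  F := T.mapT Φ
  braided := inferInstanceAs (T.mapT Φ).Braided
  exact := T.mapT_exact Φ
  coprod J := T.mapT_preserves Φ J

end map

section field

variable {P : Type} [Category.{0} P] [Preadditive P] [MonoidalCategory P]
  [MonoidalPreadditive P] [SymmetricCategory P] [RigidP P] {k : Type} [Field k] [Linear k P]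

lemma not_isZero_unit (h : 𝟙 (𝟙_ P) ≠ 0) : ¬ IsZero (𝟙_ (T P)) := by
  intro hz
  apply h
  apply (Emb.emb P).map_injective
  exact hz.eq_of_src _ _

lemma fieldLike (pp : PerfPair k P) : FieldLike (BigT P) := by
  refine ⟨not_isZero_unit pp.one_ne, ?_⟩
  intro G v hv
  exact exists_retraction_T pp G v hv

end field

end Pool.Agent.H75.TT
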