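import Pool.Agent.H75.TT.DG

/-!
Basic facts about `T P`; cones in `DG P`.
-/

open CategoryTheory CategoryTheory.Limits CategoryTheory.Pretriangulated

namespace Pool.Agent.H75.TT

open Fam

variable {P : Type} [Category.{0} P] [Preadditive P]

namespace Fam

variable {F G H : Fam P}

lemma comp_inl_m_inl (g : H ⟶ F) (i : H.ι) (j : F.ι) :
    (g ≫ inl F G).m i (Sum.inl j) = g.m i j := by
  exact (comp_diag_m (H := sum F G) g Sum.inl Sum.inl_injective (fun i => 𝟙 (F.X i)) i j).trans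
    (Category.comp_id _)

lemma comp_inl_m_inr (g : H ⟶ F) (i : H.ι) (j : G.ι) :
    (g ≫ inl F G).m i (Sum.inr j) = 0 :=
  comp_diag_m_ne (H := sum F G) g Sum.inl (fun i => 𝟙 (F.X i)) i (Sum.inr j)
    (fun _ h => by cases h)

lemma comp_inr_m_inr (g : H ⟶ G) (i : H.ι) (j : G.ι) :
    (g ≫ inr F G).m i (Sum.inr j) = g.m i j := by
  exact (comp_diag_m (H := sum F G) g Sum.inr Sum.inr_injective (fun i => 𝟙 (G.X i)) i j).trans
    (Category.comp_id _)

lemma comp_inr_m_inl (g : H ⟶ G) (i : H.ι) (j : F.ι) :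
    (g ≫ inr F G).m i (Sum.inl j) = 0 :=
  comp_diag_m_ne (H := sum F G) g Sum.inr (fun i => 𝟙 (G.X i)) i (Sum.inl j)
    (fun _ h => by cases h)

/-- The matrix of the differential of a cone. -/
noncomputable def cD (dF : F ⟶ F) (dG : G ⟶ G) (f : F ⟶ G) : sum F G ⟶ sum F G :=
  -(fst F G ≫ dF ≫ inl F G) + fst F G ≫ f ≫ inr F G + snd F G ≫ dG ≫ inr F G

@[reassoc (attr := simp)]
lemma inl_cD (dF : F ⟶ F) (dG : G ⟶ G) (f : F ⟶ G) : inl F G ≫ cD dF dG f
    = -(dF ≫ inl F G) + f ≫ inr F G := by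
  simp [cD]

@[reassoc (attr := simp)]
lemma inr_cD (dF : F ⟶ F) (dG : G ⟶ G) (f : F ⟶ G) : inr F G ≫ cD dF dG f
    = dG ≫ inr F G := by
  simp [cD]

@[reassoc (attr := simp)]
lemma cD_fst (dF : F ⟶ F) (dG : G ⟶ G) (f : F ⟶ G) : cD dF dG f ≫ fst F G
    = -(fst F G ≫ dF) := by
  simp [cD]

@[reassoc (attr := simp)]
lemma cD_snd (dF : F ⟶ F) (dG : G ⟶ G) (f : F ⟶ G) : cD dF dG f ≫ snd F G
    = fst F G ≫ f + snd F G ≫ dG := by
  simp [cD]

end Fam

namespace T

instance (n : ℤ) : (shiftFunctor (T P) n).Additive := by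
  have : (Q ⋙ shiftFunctor (T P) n).Additive := by
    have e : shiftFunctor (DG P) n ⋙ Q ≅ Q ⋙ shiftFunctor (T P) n := Q.commShiftIso n
    exact Functor.additive_of_iso e
  exact Functor.additive_of_full_essSurj_comp Q _

lemma Q_map_eq_iff {A B : DG P} (f g : A ⟶ B) :
    (Q.map f : Q.obj A ⟶ Q.obj B) = Q.map g ↔ DG.Homotopic f g :=
  Quotient.functor_map_eq_iff _ f g

lemma Q_map_eq_zero_iff {A B : DG P} (f : A ⟶ B) :
    (Q.map f : Q.obj A ⟶ Q.obj B) = 0 ↔
      ∃ h : A.F ⟶ B.F, Homog A.deg B.deg (-1) h ∧ f.f = A.d ≫ h + h ≫ B.d := by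
  have h0 : (Q.map (0 : A ⟶ B) : Q.obj A ⟶ Q.obj B) = 0 := Q.map_zero A B
  rw [← h0, Q_map_eq_iff]
  constructor
  · rintro ⟨h, hh, e⟩
    refine ⟨h, hh, ?_⟩
    rw [e, DG.zero_f, zero_add]
  · rintro ⟨h, hh, e⟩
    refine ⟨h, hh, ?_⟩
    rw [e, DG.zero_f, zero_add]

lemma isZero_Q_iff (A : DG P) : IsZero (Q.obj A : T P) ↔
    ∃ h : A.F ⟶ A.F, Homog A.deg A.deg (-1) h ∧ A.d ≫ h + h ≫ A.d = 𝟙 A.F := by
  rw [IsZero.iff_id_eq_zero, ← Q.map_id, Q_map_eq_zero_iff]
  constructor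
  · rintro ⟨h, hh, e⟩
    exact ⟨h, hh, e.symm⟩
  · rintro ⟨h, hh, e⟩
    exact ⟨h, hh, e.symm⟩

instance : HasZeroObject (T P) :=
  ⟨Q.obj DG.zeroObj, Functor.map_isZero Q DG.isZero_zeroObj⟩

end T

namespace DG

variable {A B C D : DG P}

/-! ### Cones -/

/-- The degree function of the cone. -/
def coneDeg (A B : DG P) : A.F.ι ⊕ B.F.ι → ℤ := Sum.elim (fun i => A.deg i - 1) B.deg

lemma coneD_homog (f : A ⟶ B) :
    Homog (F := Fam.sum A.F B.F) (G := Fam.sum A.F B.F) (coneDeg A B) (coneDeg A B) 1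
      (cD A.d B.d f.f) := by
  have h1 : Homog (F := Fam.sum A.F B.F) (coneDeg A B) A.deg 1 (fst A.F B.F) :=
    fst_homog fun i => by ring
  have h2 : Homog (F := Fam.sum A.F B.F) (coneDeg A B) B.deg 0 (snd A.F B.F) :=
    snd_homog fun i => by ring
  have h3 : Homog (G := Fam.sum A.F B.F) A.deg (coneDeg A B) (-1) (inl A.F B.F) :=
    inl_homog fun i => by ring
  have h4 : Homog (G := Fam.sum A.F B.F) B.deg (coneDeg A B) 0 (inr A.F B.F) :=
    inr_homog fun i => by ring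
  exact ((h1.comp' (A.hd.comp h3) (by norm_num)).neg.add
    (h1.comp' (f.hf.comp h4) (by norm_num))).add (h2.comp' (B.hd.comp h4) (by norm_num))

lemma coneD_wf (f : A ⟶ B) :
    WellFounded fun j i : (Fam.sum A.F B.F).ι => (cD A.d B.d f.f).m i j ≠ 0 := by
  have e1 : ∀ (i : A.F.ι) k, (cD A.d B.d f.f).m (Sum.inl i) k
      = (-(A.d ≫ inl A.F B.F) + f.f ≫ inr A.F B.F).m i k := by
    intro i k
    rw [← inl_cD, inl_comp_m]
  have e2 : ∀ (i : B.F.ι) k, (cD A.d B.d f.f).m (Sum.inr i) k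
      = (B.d ≫ inr A.F B.F).m i k := by
    intro i k
    rw [← inr_cD, inr_comp_m]
  have h2 : ∀ i : B.F.ι, Acc (fun j i : (Fam.sum A.F B.F).ι => (cD A.d B.d f.f).m i j ≠ 0)
      (Sum.inr i) := by
    intro i
    induction i using B.wf.induction with
    | _ i ih =>
      refine ⟨_, ?_⟩
      rintro (j | j) hj
      · rw [e2, comp_inr_m_inl] at hj
        exact absurd rfl hj
      · rw [e2, comp_inr_m_inr] at hj
        exact ih j hj
  have h1 : ∀ i : A.F.ι, Acc (fun j i : (Fam.sum A.F B.F).ι => (cD A.d B.d f.f).m i j ≠ 0)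
      (Sum.inl i) := by
    intro i
    induction i using A.wf.induction with
    | _ i ih =>
      refine ⟨_, ?_⟩
      rintro (j | j) hj
      · rw [e1, add_m, neg_m, comp_inl_m_inl, comp_inr_m_inl, add_zero] at hj
        exact ih j (fun h => hj (by rw [h]; exact neg_zero))
      · exact h2 j
  exact ⟨fun i => i.casesOn h1 h2⟩

/-- The mapping cone. -/
noncomputable def cone (f : A ⟶ B) : DG P where
  F := Fam.sum A.F B.F
  deg := coneDeg A B
  d := cD A.d B.d f.f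
  hd := coneD_homog f
  dd := by
    apply sum_ext
    · simp [comm_assoc f]
    · simp
  wf := coneD_wf f

lemma cone_F (f : A ⟶ B) : (cone f).F = Fam.sum A.F B.F := rfl
lemma cone_d (f : A ⟶ B) : (cone f).d = cD A.d B.d f.f := rfl
lemma cone_deg (f : A ⟶ B) : (cone f).deg = coneDeg A B := rfl

/-- The inclusion into the cone. -/
@[simps]
noncomputable def cinr (f : A ⟶ B) : B ⟶ cone f where
  f := inr A.F B.F
  hf := inr_homog (a := fun i => A.deg i - 1) fun i => (by ring)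
  comm := (inr_cD A.d B.d f.f).symm

/-- The projection from the cone to the shift. -/
@[simps]
noncomputable def cfst (f : A ⟶ B) : cone f ⟶ A⟦(1 : ℤ)⟧ where
  f := fst A.F B.F
  hf := fst_homog (b := B.deg) (a' := fun i => A.deg i - 1) fun i => (by ring)
  comm := by
    change cD A.d B.d f.f ≫ fst A.F B.F = fst A.F B.F ≫ (((1 : ℤ).negOnePow : ℤ) • A.d)
    simp

/-- The cone triangle. -/
noncomputable abbrev coneTri (f : A ⟶ B) : Triangle (DG P) := Triangle.mk f (cinr f) (cfst f)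

end DG

end Pool.Agent.H75.TT
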