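import Pool.Agent.H75.TT.Tri2
import Pool.Agent.H75.TT.Defs
import Pool.Agent.H86.TT.Contr
import Pool.Agent.H47.TT.Field

/-!
Coproducts in `T P`.
-/

open CategoryTheory CategoryTheory.Limits CategoryTheory.Pretriangulated

namespace Pool.Agent.H75.TT

open Fam

variable {P : Type} [Category.{0} P] [Preadditive P]

namespace Fam

variable {α : Type} (F : α → Fam P)

lemma comp_inc_m {H : Fam P} (a : α) (f : H ⟶ F a) (i : H.ι) (j : (F a).ι) :
    (f ≫ inc F a).m i ⟨a, j⟩ = f.m i j := by
  exact (comp_diag_m (H := sigma F) f (fun i => (⟨a, i⟩ : Σ a, (F a).ι))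
    (fun x y h => by simpa using h) (fun i => 𝟙 ((F a).X i)) i j).trans (Category.comp_id _)

lemma comp_inc_m_ne {H : Fam P} (a : α) (f : H ⟶ F a) (i : H.ι) (p : (sigma F).ι)
    (h : p.1 ≠ a) : (f ≫ inc F a).m i p = 0 :=
  comp_diag_m_ne (H := sigma F) f (fun i => (⟨a, i⟩ : Σ a, (F a).ι))
    (fun i => 𝟙 ((F a).X i)) i p (fun j hj => h (by rw [← hj]))

/-- The projection to a component. -/
noncomputable def prj (a : α) : sigma F ⟶ F a := by
  classical
  exact desc F fun b => if h : b = a then eqToHom (congrArg F h) else 0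

@[reassoc (attr := simp)]
lemma inc_prj (a : α) : inc F a ≫ prj F a = 𝟙 (F a) := by
  rw [prj, inc_desc]
  simp

lemma inc_prj_ne {a b : α} (h : b ≠ a) : inc F b ≫ prj F a = 0 := by
  rw [prj, inc_desc, dif_neg h]

lemma prj_m (a : α) (i j : (F a).ι) : (prj F a).m ⟨a, i⟩ j = (𝟙 (F a) : F a ⟶ F a).m i j := by
  rw [← inc_comp_m, inc_prj]

lemma prj_m_ne (a : α) (p : (sigma F).ι) (j : (F a).ι) (h : p.1 ≠ a) :
    (prj F a).m p j = 0 := by
  obtain ⟨b, i⟩ := p
  rw [← inc_comp_m, inc_prj_ne F h]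
  rfl

lemma comp_prj_m {H : Fam P} (a : α) (f : H ⟶ sigma F) (i : H.ι) (j : (F a).ι) :
    (f ≫ prj F a).m i j = f.m i ⟨a, j⟩ := by
  rw [comp_m_one' f (prj F a) i j ⟨a, j⟩, prj_m, id_m_self]
  · exact Category.comp_id _
  · rintro ⟨b, k⟩ hne
    by_cases h : b = a
    · subst h
      rw [prj_m] at hne
      by_cases hk : k = j
      · subst hk; rfl
      · exact absurd (id_m_ne (F b) hk) hne
    · exact absurd (prj_m_ne F a ⟨b, k⟩ j h) hne

/-- A one-row matrix into a sigma is the finite sum of its components. -/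
lemma eq_sum_prj {H : Fam P} (f : H ⟶ sigma F) (s : Finset α)
    (hs : ∀ i p, f.m i p ≠ 0 → p.1 ∈ s) : f = ∑ a ∈ s, (f ≫ prj F a) ≫ inc F a := by
  classical
  ext i p
  obtain ⟨b, j⟩ := p
  rw [sum_m]
  by_cases hb : b ∈ s
  · rw [Finset.sum_eq_single b]
    · rw [comp_inc_m, comp_prj_m]
    · intro a _ hab
      exact comp_inc_m_ne F a _ i ⟨b, j⟩ (fun h => hab h.symm)
    · intro h
      exact absurd hb h
  · rw [Finset.sum_eq_zero]
    · by_contra hne
      exact hb (hs i ⟨b, j⟩ hne)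
    · intro a ha
      refine comp_inc_m_ne F a _ i ⟨b, j⟩ (fun h => hb ?_)
      change b = a at h
      rwa [h]

end Fam

namespace DG

variable {α : Type} (A : α → DG P)

/-- The differential of a coproduct. -/
noncomputable def sigD : Fam.sigma (fun a => (A a).F) ⟶ Fam.sigma (fun a => (A a).F) :=
  Fam.desc (fun a => (A a).F) fun a => (A a).d ≫ inc (fun a => (A a).F) a

@[reassoc (attr := simp)]
lemma inc_sigD (a : α) : inc (fun a => (A a).F) a ≫ sigD A =
    (A a).d ≫ inc (fun a => (A a).F) a := inc_desc _ _ _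

/-- The coproduct of a family of semi-free complexes. -/
noncomputable def sigma : DG P where
  F := Fam.sigma (fun a => (A a).F)
  deg p := (A p.1).deg p.2
  d := sigD A
  hd := by
    rintro ⟨a, i⟩ ⟨b, j⟩ h
    rw [← inc_comp_m (fun a => (A a).F), inc_sigD] at h
    by_cases hab : b = a
    · subst hab
      rw [comp_inc_m (fun a => (A a).F)] at h
      exact (A b).hd i j h
    · exact absurd (comp_inc_m_ne (fun a => (A a).F) a _ i ⟨b, j⟩ hab) h
  dd := by
    apply sigma_ext
    intro a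
    rw [inc_sigD_assoc, inc_sigD, d_d_assoc, zero_comp, comp_zero]
  wf := by
    refine ⟨?_⟩
    rintro ⟨a, i⟩
    induction i using (A a).wf.induction with
    | _ i ih =>
      refine ⟨_, ?_⟩
      rintro ⟨b, j⟩ h
      rw [← inc_comp_m (fun a => (A a).F), inc_sigD] at h
      by_cases hab : b = a
      · subst hab
        rw [comp_inc_m (fun a => (A a).F)] at h
        exact ih j h
      · exact absurd (comp_inc_m_ne (fun a => (A a).F) a _ i ⟨b, j⟩ hab) h

lemma sigma_F : (sigma A).F = Fam.sigma (fun a => (A a).F) := rfl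
lemma sigma_d : (sigma A).d = sigD A := rfl

/-- Inclusion of a component. -/
@[simps]
noncomputable def inc (a : α) : A a ⟶ sigma A where
  f := Fam.inc (fun a => (A a).F) a
  hf := Homog.diag (G := Fam.sigma (fun a => (A a).F)) fun _ => (add_zero _).symm
  comm := (inc_sigD A a).symm

/-- Descent. -/
@[simps]
noncomputable def desc {B : DG P} (f : ∀ a, A a ⟶ B) : sigma A ⟶ B where
  f := Fam.desc (fun a => (A a).F) fun a => (f a).f
  hf := by
    rintro ⟨a, i⟩ j h
    exact (f a).hf i j h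
  comm := by
    apply sigma_ext
    intro a
    change Fam.inc (fun a => (A a).F) a ≫ sigD A ≫ (Fam.desc (fun a => (A a).F) fun a => (f a).f) =
      Fam.inc (fun a => (A a).F) a ≫ (Fam.desc (fun a => (A a).F) fun a => (f a).f) ≫ B.d
    rw [inc_sigD_assoc, Fam.inc_desc, Fam.inc_desc_assoc, DG.comm]

@[reassoc (attr := simp)]
lemma inc_desc_dg {B : DG P} (f : ∀ a, A a ⟶ B) (a : α) : inc A a ≫ desc A f = f a := by
  apply DG.hom_ext
  exact Fam.inc_desc (fun a => (A a).F) (fun a => (f a).f) a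

lemma sigma_hom_ext {B : DG P} {f g : sigma A ⟶ B} (h : ∀ a, inc A a ≫ f = inc A a ≫ g) :
    f = g := by
  apply DG.hom_ext
  refine Fam.sigma_ext (fun a => (A a).F) fun a => ?_
  have := h a
  exact congrArg (fun t : A a ⟶ B => t.f) this

/-- Homotopies can be glued. -/
lemma homotopic_of_inc {B : DG P} {f g : sigma A ⟶ B}
    (h : ∀ a, Homotopic (inc A a ≫ f) (inc A a ≫ g)) : Homotopic f g := by
  choose h hh e using h
  refine ⟨Fam.desc (fun a => (A a).F) h, ?_, ?_⟩
  · rintro ⟨a, i⟩ j hne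
    exact hh a i j hne
  · refine Fam.sigma_ext (fun a => (A a).F) fun a => ?_
    have h1 : Fam.inc (fun a => (A a).F) a ≫ (sigma A).d ≫ Fam.desc (fun a => (A a).F) h =
        (A a).d ≫ h a := by
      change Fam.inc (fun a => (A a).F) a ≫ sigD A ≫ Fam.desc (fun a => (A a).F) h = _
      rw [inc_sigD_assoc, Fam.inc_desc]
    have h2 : Fam.inc (fun a => (A a).F) a ≫ Fam.desc (fun a => (A a).F) h ≫ B.d = h a ≫ B.d := by
      rw [Fam.inc_desc_assoc]
    refine (e a).trans ?_
    rw [← h1, ← h2]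
    refine Eq.trans ?_ (Preadditive.comp_add _ _ _ _ _ _).symm
    congr 1
    exact (Preadditive.comp_add _ _ _ _ _ _).symm

end DG

namespace T

variable {α : Type}

/-- The cofan of a coproduct. -/
noncomputable def sigCofan (A : α → DG P) : Cofan (fun a => (Q.obj (A a) : T P)) :=
  Cofan.mk (Q.obj (DG.sigma A)) fun a => Q.map (DG.inc A a)

/-- It is a colimit. -/
noncomputable def isColimitSigCofan (A : α → DG P) : IsColimit (sigCofan A) := by
  refine Cofan.IsColimit.mk _
    (fun s => Q.map (DG.desc A fun a => ((Q : DG P ⥤ T P).map_surjective (s.inj a)).choose))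
    ?_ ?_
  · intro s a
    change Q.map (DG.inc A a) ≫ Q.map (DG.desc A _) = s.inj a
    rw [← Q.map_comp, DG.inc_desc_dg]
    exact ((Q : DG P ⥤ T P).map_surjective (s.inj a)).choose_spec
  · intro s m hm
    obtain ⟨m, rfl⟩ := (Q : DG P ⥤ T P).map_surjective m
    refine (Q_map_eq_iff _ _).2 ?_
    apply DG.homotopic_of_inc
    intro a
    rw [← Q_map_eq_iff, DG.inc_desc_dg, ((Q : DG P ⥤ T P).map_surjective (s.inj a)).choose_spec,
      Q.map_comp]
    exact hm a

lemma exists_rep (X : α → T P) : ∃ A : α → DG P, X = fun a => Q.obj (A a) :=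
  ⟨fun a => (X a).as, rfl⟩

instance : HasCoproducts.{0} (T P) := by
  intro α
  refine ⟨fun F => ?_⟩
  have e : F ≅ Discrete.functor (fun a => (Q.obj (F.obj ⟨a⟩).as : T P)) :=
    Discrete.natIsoFunctor
  have : HasColimit (Discrete.functor (fun a => (Q.obj (F.obj ⟨a⟩).as : T P))) :=
    ⟨_, isColimitSigCofan fun a => (F.obj ⟨a⟩).as⟩
  exact hasColimit_of_iso e

/-- Comparison with the chosen coproduct. -/
noncomputable def sigmaIso (A : α → DG P) :
    (∐ fun a => (Q.obj (A a) : T P)) ≅ Q.obj (DG.sigma A) :=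
  (colimit.isColimit _).coconePointUniqueUpToIso (isColimitSigCofan A)

@[reassoc (attr := simp)]
lemma ι_sigmaIso_hom (A : α → DG P) (a : α) :
    Sigma.ι (fun a => (Q.obj (A a) : T P)) a ≫ (sigmaIso A).hom = Q.map (DG.inc A a) :=
  IsColimit.comp_coconePointUniqueUpToIso_hom _ _ _

end T

end Pool.Agent.H75.TT
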