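import Pool.Agent.H75.TT.FamB

/-!
Semi-free complexes over `P`: families with a degree function and a differential of degree one
which is well-founded. Chain maps, shifts, homotopies, cones.
-/

open CategoryTheory CategoryTheory.Limits

namespace Pool.Agent.H75.TT

open Fam

/-- A semi-free complex of objects of `P`, presented as one family with a degree function. -/
structure DG (P : Type) [Category.{0} P] [Preadditive P] where
  F : Fam P
  deg : F.ι → ℤ
  d : F ⟶ F
  hd : Homog deg deg 1 d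
  dd : d ≫ d = 0
  wf : WellFounded fun j i : F.ι => d.m i j ≠ 0

namespace DG

variable {P : Type} [Category.{0} P] [Preadditive P]

/-- Chain maps. -/
@[ext]
structure Hom (A B : DG P) where
  f : A.F ⟶ B.F
  hf : Homog A.deg B.deg 0 f
  comm : A.d ≫ f = f ≫ B.d

noncomputable instance : Category.{0} (DG P) where
  Hom := Hom
  id A := ⟨𝟙 _, Homog.id, by simp⟩
  comp f g := ⟨f.f ≫ g.f, f.hf.comp' g.hf (add_zero 0), by
    rw [← Category.assoc, f.comm, Category.assoc, g.comm, Category.assoc]⟩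

variable {A B C D : DG P}

@[ext]
lemma hom_ext {f g : A ⟶ B} (h : f.f = g.f) : f = g := Hom.ext h

@[simp] lemma id_f (A : DG P) : (𝟙 A : A ⟶ A).f = 𝟙 A.F := rfl
@[simp, reassoc] lemma comp_f (f : A ⟶ B) (g : B ⟶ C) : (f ≫ g).f = f.f ≫ g.f := rfl

@[reassoc]
lemma comm (f : A ⟶ B) : A.d ≫ f.f = f.f ≫ B.d := Hom.comm f

@[reassoc (attr := simp)]
lemma d_d (A : DG P) : A.d ≫ A.d = 0 := A.dd

noncomputable instance : AddCommGroup (A ⟶ B) where
  add f g := ⟨f.f + g.f, f.hf.add g.hf, by
    rw [Preadditive.comp_add, Preadditive.add_comp, f.comm, g.comm]⟩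
  zero := ⟨0, Homog.zero, by simp⟩
  neg f := ⟨-f.f, f.hf.neg, by rw [Preadditive.comp_neg, Preadditive.neg_comp, f.comm]⟩
  sub f g := ⟨f.f - g.f, f.hf.sub g.hf, by
    rw [Preadditive.comp_sub, Preadditive.sub_comp, f.comm, g.comm]⟩
  nsmul n f := ⟨n • f.f, by
      have := f.hf.zsmul (n : ℤ)
      rwa [natCast_zsmul] at this, by
    rw [Preadditive.comp_nsmul, Preadditive.nsmul_comp, f.comm]⟩
  zsmul n f := ⟨n • f.f, f.hf.zsmul n, by
    rw [Preadditive.comp_zsmul, Preadditive.zsmul_comp, f.comm]⟩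
  add_assoc f g h := Hom.ext (add_assoc f.f g.f h.f)
  zero_add f := Hom.ext (zero_add f.f)
  add_zero f := Hom.ext (add_zero f.f)
  add_comm f g := Hom.ext (add_comm f.f g.f)
  neg_add_cancel f := Hom.ext (neg_add_cancel f.f)
  sub_eq_add_neg f g := Hom.ext (sub_eq_add_neg f.f g.f)
  nsmul_zero f := Hom.ext (zero_smul ℕ f.f)
  nsmul_succ n f := Hom.ext (succ_nsmul f.f n)
  zsmul_zero' f := Hom.ext (zero_smul ℤ f.f)
  zsmul_succ' n f := Hom.ext (SubNegMonoid.zsmul_succ' n f.f)
  zsmul_neg' n f := Hom.ext (SubNegMonoid.zsmul_neg' n f.f)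

@[simp] lemma add_f (f g : A ⟶ B) : (f + g).f = f.f + g.f := rfl
@[simp] lemma zero_f : (0 : A ⟶ B).f = 0 := rfl
@[simp] lemma neg_f (f : A ⟶ B) : (-f).f = - f.f := rfl
@[simp] lemma sub_f (f g : A ⟶ B) : (f - g).f = f.f - g.f := rfl
@[simp] lemma zsmul_f (n : ℤ) (f : A ⟶ B) : (n • f).f = n • f.f := rfl

noncomputable instance : Preadditive (DG P) where
  add_comp A B C f f' g := by
    apply DG.hom_ext
    exact Preadditive.add_comp A.F B.F C.F f.f f'.f g.f
  comp_add A B C f g g' := by
    apply DG.hom_ext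
    exact Preadditive.comp_add A.F B.F C.F f.f g.f g'.f

/-- The underlying family. -/
@[simps]
noncomputable def U : DG P ⥤ Fam P where
  obj A := A.F
  map f := f.f

instance : (U : DG P ⥤ Fam P).Faithful where
  map_injective h := DG.hom_ext h

instance : (U : DG P ⥤ Fam P).Additive where

/-- Build an isomorphism from a chain map with invertible underlying matrix. -/
@[simps]
noncomputable def isoMk (f : A ⟶ B) (g : B ⟶ A) (h1 : f.f ≫ g.f = 𝟙 _)
    (h2 : g.f ≫ f.f = 𝟙 _) : A ≅ B where
  hom := f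
  inv := g
  hom_inv_id := DG.hom_ext h1
  inv_hom_id := DG.hom_ext h2

/-! ### Shift -/

/-- The shift by `n`. -/
@[simps]
noncomputable def sh (n : ℤ) (A : DG P) : DG P where
  F := A.F
  deg i := A.deg i - n
  d := (n.negOnePow : ℤ) • A.d
  hd := (A.hd.zsmul _).congr fun i j h => by linarith
  dd := by simp
  wf := by
    refine Subrelation.wf (h₁ := ?_) A.wf
    intro j i h h0
    exact h (by rw [zsmul_m, h0, smul_zero])

/-- The shift on chain maps. -/
@[simps]
noncomputable def shMap (n : ℤ) (f : A ⟶ B) : sh n A ⟶ sh n B where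
  f := f.f
  hf := (f.hf.congr (fun i j h => by linarith) :
    Homog (fun i => A.deg i - n) (fun i => B.deg i - n) 0 f.f)
  comm := by
    change ((n.negOnePow : ℤ) • A.d) ≫ f.f = f.f ≫ ((n.negOnePow : ℤ) • B.d)
    rw [Preadditive.zsmul_comp, Preadditive.comp_zsmul, f.comm]

/-- The shift functor on chain complexes. -/
@[simps]
noncomputable def shF (n : ℤ) : DG P ⥤ DG P where
  obj := sh n
  map := shMap n

/-- A chain map with underlying identity matrix. -/
@[simps]
noncomputable def idHom {F : Fam P} {a a' : F.ι → ℤ} {d d' : F ⟶ F} {h1 : Homog a a 1 d}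
    {h2 : d ≫ d = 0} {h3 : WellFounded fun j i : F.ι => d.m i j ≠ 0}
    {h1' : Homog a' a' 1 d'}
    {h2' : d' ≫ d' = 0} {h3' : WellFounded fun j i : F.ι => d'.m i j ≠ 0}
    (ha : ∀ i, a i = a' i) (hd : d = d') :
    (DG.mk F a d h1 h2 h3) ⟶ (DG.mk F a' d' h1' h2' h3') where
  f := 𝟙 F
  hf := (Homog.id (a := a)).congr fun i j h => by
    change a' j = a i + 0
    rw [← ha, h]
  comm := by
    change d ≫ 𝟙 F = 𝟙 F ≫ d'
    rw [Category.comp_id, Category.id_comp, hd]

/-- An isomorphism with underlying identity matrix. -/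
@[simps]
noncomputable def idIso {F : Fam P} {a a' : F.ι → ℤ} {d d' : F ⟶ F} {h1 : Homog a a 1 d}
    {h2 : d ≫ d = 0} {h3 : WellFounded fun j i : F.ι => d.m i j ≠ 0}
    {h1' : Homog a' a' 1 d'}
    {h2' : d' ≫ d' = 0} {h3' : WellFounded fun j i : F.ι => d'.m i j ≠ 0}
    (ha : ∀ i, a i = a' i) (hd : d = d') :
    (DG.mk F a d h1 h2 h3) ≅ (DG.mk F a' d' h1' h2' h3') where
  hom := idHom ha hd
  inv := idHom (fun i => (ha i).symm) hd.symm
  hom_inv_id := by
    apply DG.hom_ext
    exact Category.comp_id _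
  inv_hom_id := by
    apply DG.hom_ext
    exact Category.comp_id _

/-- `A⟦0⟧ ≅ A`. -/
noncomputable def sh0 (A : DG P) : sh 0 A ≅ A :=
  idIso (F := A.F) (a := fun i => A.deg i - 0) (a' := A.deg) (fun i => sub_zero _)
    (by simp)

/-- `A⟦n + m⟧ ≅ A⟦n⟧⟦m⟧`. -/
noncomputable def shAdd (n m : ℤ) (A : DG P) : sh (n + m) A ≅ sh m (sh n A) :=
  idIso (F := A.F) (a := fun i => A.deg i - (n + m)) (a' := fun i => A.deg i - n - m)
    (fun i => by ring) (by
      change ((n + m).negOnePow : ℤ) • A.d = (m.negOnePow : ℤ) • ((n.negOnePow : ℤ) • A.d)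
      rw [smul_smul, Int.negOnePow_add]
      push_cast
      rw [mul_comm])

@[simp] lemma sh0_hom_f (A : DG P) : (sh0 A).hom.f = 𝟙 A.F := rfl
@[simp] lemma sh0_inv_f (A : DG P) : (sh0 A).inv.f = 𝟙 A.F := rfl
@[simp] lemma shAdd_hom_f (n m : ℤ) (A : DG P) : (shAdd n m A).hom.f = 𝟙 A.F := rfl
@[simp] lemma shAdd_inv_f (n m : ℤ) (A : DG P) : (shAdd n m A).inv.f = 𝟙 A.F := rfl

lemma eqToHom_sh (A : DG P) {n m : ℤ} (h : n = m) (e : sh n A = sh m A) :
    (eqToHom e).f = 𝟙 A.F := by
  subst h; rfl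

noncomputable instance : HasShift (DG P) ℤ :=
  hasShiftMk (DG P) ℤ
    { F := shF
      zero := NatIso.ofComponents (fun A => sh0 A) (fun {A B} f => by
        apply DG.hom_ext
        exact (Category.comp_id f.f).trans (Category.id_comp f.f).symm)
      add := fun n m => NatIso.ofComponents (fun A => shAdd n m A) (fun {A B} f => by
        apply DG.hom_ext
        exact (Category.comp_id f.f).trans (Category.id_comp f.f).symm)
      assoc_hom_app := fun n m k A => by
        apply DG.hom_ext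
        dsimp
        exact (Category.comp_id (𝟙 A.F)).trans
          (((congrArg (fun t : A.F ⟶ A.F => t ≫ 𝟙 A.F ≫ 𝟙 A.F)
            (eqToHom_sh A (add_assoc n m k) _)).trans (by simp)).symm)
      zero_add_hom_app := fun n A => by
        apply DG.hom_ext
        dsimp
        exact ((congrArg (fun t : A.F ⟶ A.F => t ≫ 𝟙 A.F)
            (eqToHom_sh A (zero_add n) _)).trans (by simp)).symm
      add_zero_hom_app := fun n A => by
        apply DG.hom_ext
        dsimp
        exact ((congrArg (fun t : A.F ⟶ A.F => t ≫ 𝟙 A.F)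
            (eqToHom_sh A (add_zero n) _)).trans (by simp)).symm }

lemma shift_obj (n : ℤ) (A : DG P) : A⟦n⟧ = sh n A := rfl

lemma shift_map_f (n : ℤ) (f : A ⟶ B) : (f⟦n⟧').f = f.f := rfl

lemma shiftFunctorZero_hom_f (A : DG P) :
    ((shiftFunctorZero (DG P) ℤ).hom.app A).f = 𝟙 A.F := rfl

lemma shiftFunctorZero_inv_f (A : DG P) :
    ((shiftFunctorZero (DG P) ℤ).inv.app A).f = 𝟙 A.F := rfl

lemma shiftFunctorAdd_hom_f (n m : ℤ) (A : DG P) :
    ((shiftFunctorAdd (DG P) n m).hom.app A).f = 𝟙 A.F := rfl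

lemma shiftFunctorAdd_inv_f (n m : ℤ) (A : DG P) :
    ((shiftFunctorAdd (DG P) n m).inv.app A).f = 𝟙 A.F := rfl

instance (n : ℤ) : (shiftFunctor (DG P) n).Additive where
  map_add := by
    intro A B f g
    apply DG.hom_ext
    rfl

/-- The zero complex. -/
noncomputable def zeroObj : DG P where
  F := ⟨Empty, fun e => e.elim⟩
  deg e := e.elim
  d := 0
  hd := Homog.zero
  dd := by simp
  wf := ⟨fun e => e.elim⟩

lemma isZero_zeroObj : IsZero (zeroObj : DG P) where
  unique_to _ := ⟨⟨⟨0⟩, fun _ => DG.hom_ext (Fam.hom_ext fun i _ => i.elim)⟩⟩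
  unique_from _ := ⟨⟨⟨0⟩, fun _ => DG.hom_ext (Fam.hom_ext fun _ j => j.elim)⟩⟩

instance : HasZeroObject (DG P) := ⟨_, isZero_zeroObj⟩

/-! ### Homotopy -/

/-- Two chain maps are homotopic. -/
def Homotopic (f g : A ⟶ B) : Prop :=
  ∃ h : A.F ⟶ B.F, Homog A.deg B.deg (-1) h ∧ f.f = g.f + A.d ≫ h + h ≫ B.d

/-- The homotopy relation. -/
def homRel (P : Type) [Category.{0} P] [Preadditive P] : HomRel (DG P) :=
  fun _ _ f g => Homotopic f g

instance : Congruence (homRel P) where
  equivalence :=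
    { refl := fun f => ⟨0, Homog.zero, by simp⟩
      symm := by
        rintro f g ⟨h, hh, e⟩
        refine ⟨-h, hh.neg, ?_⟩
        rw [e, Preadditive.comp_neg, Preadditive.neg_comp]
        abel
      trans := by
        rintro f g k ⟨h, hh, e⟩ ⟨h', hh', e'⟩
        refine ⟨h + h', hh.add hh', ?_⟩
        rw [e, e', Preadditive.comp_add, Preadditive.add_comp]
        abel }
  comp_left := by
    rintro A B C f g g' ⟨h, hh, e⟩
    refine ⟨f.f ≫ h, f.hf.comp' hh (by norm_num), ?_⟩
    rw [comp_f, comp_f, e, Preadditive.comp_add, Preadditive.comp_add, ← Category.assoc A.d,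
      comm f, Category.assoc, Category.assoc]
  comp_right := by
    rintro A B C f f' g ⟨h, hh, e⟩
    refine ⟨h ≫ g.f, hh.comp' g.hf (by norm_num), ?_⟩
    rw [comp_f, comp_f, e, Preadditive.add_comp, Preadditive.add_comp, Category.assoc,
      Category.assoc, Category.assoc, comm g]

end DG

/-- The homotopy category of semi-free complexes: a model for the derived category of `P`. -/
abbrev T (P : Type) [Category.{0} P] [Preadditive P] := Quotient (DG.homRel P)

namespace T

variable {P : Type} [Category.{0} P] [Preadditive P]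

/-- The quotient functor. -/
noncomputable abbrev Q : DG P ⥤ T P := Quotient.functor _

noncomputable instance : Preadditive (T P) :=
  Quotient.preadditive _ (by
    rintro A B f g f' g' ⟨h, hh, e⟩ ⟨h', hh', e'⟩
    refine ⟨h + h', hh.add hh', ?_⟩
    rw [DG.add_f, DG.add_f, e, e', Preadditive.comp_add, Preadditive.add_comp]
    abel)

instance : (Q : DG P ⥤ T P).Additive := Quotient.functor_additive _ _

instance : (DG.homRel P).IsCompatibleWithShift ℤ where
  condition := by
    rintro n A B f g ⟨h, hh, e⟩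
    refine ⟨(n.negOnePow : ℤ) • h, (hh.zsmul _).congr fun i j hij => ?_, ?_⟩
    · change B.deg j - n = A.deg i - n + -1
      linarith
    · change f.f = g.f + ((n.negOnePow : ℤ) • A.d) ≫ ((n.negOnePow : ℤ) • h)
        + ((n.negOnePow : ℤ) • h) ≫ ((n.negOnePow : ℤ) • B.d)
      rw [e]
      simp only [Preadditive.zsmul_comp, Preadditive.comp_zsmul, smul_smul]
      rcases Int.units_eq_one_or n.negOnePow with h | h <;> simp [h]

end T

end Pool.Agent.H75.TT
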