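import Mathlib

/-!
Families of objects of a preadditive category `P` (free completion under coproducts).
Objects: families `(X i)` indexed by a small type; morphisms: matrices with finite rows.
-/

open CategoryTheory CategoryTheory.Limits

namespace Pool.Agent.H75.TT

/-- A small family of objects of `P`. -/
structure Fam (P : Type) where
  ι : Type
  X : ι → P

namespace Fam

variable {P : Type} [Category.{0} P] [Preadditive P]

/-- Matrices of morphisms with finitely many nonzero entries in each row. -/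
@[ext]
structure Hom (F G : Fam P) where
  m : ∀ (i : F.ι) (j : G.ι), F.X i ⟶ G.X j
  fin : ∀ i, {j | m i j ≠ 0}.Finite

namespace Hom

variable {F G H K : Fam P}

/-- The finite support of a row. -/
noncomputable def supp (f : Hom F G) (i : F.ι) : Finset G.ι := (f.fin i).toFinset

lemma mem_supp (f : Hom F G) (i : F.ι) (j : G.ι) : j ∈ f.supp i ↔ f.m i j ≠ 0 := by
  simp [supp]

/-- Identity matrix. -/
noncomputable def id (F : Fam P) : Hom F F := by
  classical
  exact
  { m := fun i j => if h : i = j then eqToHom (by rw [h]) else 0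
    fin := fun i => by
      refine (Set.finite_singleton i).subset ?_
      intro j hj
      by_contra hne
      apply hj
      rw [dif_neg]
      exact fun h => hne (by rw [h]; rfl) }

/-- Matrix product. -/
noncomputable def comp (f : Hom F G) (g : Hom G H) : Hom F H where
  m i k := ∑ j ∈ f.supp i, f.m i j ≫ g.m j k
  fin i := by
    classical
    refine ((f.supp i).biUnion fun j => g.supp j).finite_toSet.subset ?_
    intro k hk
    simp only [Set.mem_ofPred_eq] at hk
    obtain ⟨j, hj, hne⟩ := Finset.exists_ne_zero_of_sum_ne_zero hk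
    simp only [Finset.coe_biUnion, Set.mem_iUnion]
    refine ⟨j, hj, ?_⟩
    rw [Finset.mem_coe, mem_supp]
    intro h0
    rw [h0, comp_zero] at hne
    exact hne rfl

lemma comp_m_sum (f : Hom F G) (g : Hom G H) (i : F.ι) (k : H.ι) (s : Finset G.ι)
    (hs : ∀ j, f.m i j ≠ 0 → j ∈ s) : (comp f g).m i k = ∑ j ∈ s, f.m i j ≫ g.m j k := by
  refine Finset.sum_subset (fun j hj => hs j ((mem_supp _ _ _).1 hj)) ?_
  intro j _ hj
  rw [mem_supp, not_not] at hj
  rw [hj, zero_comp]

lemma comp_m_one (f : Hom F G) (g : Hom G H) (i : F.ι) (k : H.ι) (j₀ : G.ι)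
    (hs : ∀ j, f.m i j ≠ 0 → j = j₀) : (comp f g).m i k = f.m i j₀ ≫ g.m j₀ k := by
  rw [comp_m_sum f g i k {j₀} (fun j hj => by simp [hs j hj])]
  simp

/-- If the column of `g` has only the entry `j₀` nonzero. -/
lemma comp_m_one' (f : Hom F G) (g : Hom G H) (i : F.ι) (k : H.ι) (j₀ : G.ι)
    (hs : ∀ j, g.m j k ≠ 0 → j = j₀) : (comp f g).m i k = f.m i j₀ ≫ g.m j₀ k := by
  classical
  rw [comp_m_sum f g i k (insert j₀ (f.supp i))
    (fun j hj => Finset.mem_insert_of_mem ((mem_supp _ _ _).2 hj))]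
  refine Finset.sum_eq_single j₀ ?_ ?_
  · intro j _ hj
    have : g.m j k = 0 := by
      by_contra h
      exact hj (hs j h)
    rw [this, comp_zero]
  · intro h
    exact absurd (Finset.mem_insert_self _ _) h

end Hom

noncomputable instance : Category.{0} (Fam P) where
  Hom := Hom
  id := Hom.id
  comp := Hom.comp
  id_comp {F G} f := by
    ext i k
    rw [Hom.comp_m_one (Hom.id F) f i k i]
    · simp [Hom.id]
    · intro j hj
      by_contra hne
      apply hj
      simp only [Hom.id]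
      rw [dif_neg]
      exact fun h => hne (by rw [h])
  comp_id {F G} f := by
    ext i k
    rw [Hom.comp_m_one' f (Hom.id G) i k k]
    · simp [Hom.id]
    · intro j hj
      by_contra hne
      apply hj
      simp only [Hom.id]
      rw [dif_neg]
      exact hne
  assoc {F G H K} f g h := by
    classical
    ext i l
    let s := f.supp i
    let t := s.biUnion fun j => g.supp j
    have hs : ∀ j, f.m i j ≠ 0 → j ∈ s := fun j hj => (Hom.mem_supp _ _ _).2 hj
    have ht : ∀ k, (Hom.comp f g).m i k ≠ 0 → k ∈ t := by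
      intro k hk
      rw [Hom.comp_m_sum f g i k s hs] at hk
      obtain ⟨j, hj, hne⟩ := Finset.exists_ne_zero_of_sum_ne_zero hk
      refine Finset.mem_biUnion.2 ⟨j, hj, ?_⟩
      rw [Hom.mem_supp]
      intro h0
      rw [h0, comp_zero] at hne
      exact hne rfl
    rw [Hom.comp_m_sum _ _ i l t ht, Hom.comp_m_sum f _ i l s hs]
    have h1 : ∀ j ∈ s, (Hom.comp g h).m j l = ∑ k ∈ t, g.m j k ≫ h.m k l := by
      intro j hj
      refine Hom.comp_m_sum g h j l t fun k hk => ?_
      exact Finset.mem_biUnion.2 ⟨j, hj, (Hom.mem_supp _ _ _).2 hk⟩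
    have h2 : ∀ k ∈ t, (Hom.comp f g).m i k ≫ h.m k l
        = ∑ j ∈ s, f.m i j ≫ g.m j k ≫ h.m k l := by
      intro k _
      rw [Hom.comp_m_sum f g i k s hs, Preadditive.sum_comp]
      exact Finset.sum_congr rfl fun j _ => Category.assoc _ _ _
    have h3 : ∀ j ∈ s, f.m i j ≫ (Hom.comp g h).m j l
        = ∑ k ∈ t, f.m i j ≫ g.m j k ≫ h.m k l := by
      intro j hj
      rw [h1 j hj, Preadditive.comp_sum]
    rw [Finset.sum_congr rfl h2, Finset.sum_congr rfl h3, Finset.sum_comm]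

variable {F G H K : Fam P}

@[ext]
lemma hom_ext {f g : F ⟶ G} (h : ∀ i j, f.m i j = g.m i j) : f = g :=
  Hom.ext (funext fun i => funext fun j => h i j)

lemma comp_m_sum (f : F ⟶ G) (g : G ⟶ H) (i : F.ι) (k : H.ι) (s : Finset G.ι)
    (hs : ∀ j, f.m i j ≠ 0 → j ∈ s) : (f ≫ g).m i k = ∑ j ∈ s, f.m i j ≫ g.m j k :=
  Hom.comp_m_sum f g i k s hs

lemma comp_m_supp (f : F ⟶ G) (g : G ⟶ H) (i : F.ι) (k : H.ι) :
    (f ≫ g).m i k = ∑ j ∈ Hom.supp f i, f.m i j ≫ g.m j k := rfl

lemma comp_m_one (f : F ⟶ G) (g : G ⟶ H) (i : F.ι) (k : H.ι) (j₀ : G.ι)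
    (hs : ∀ j, f.m i j ≠ 0 → j = j₀) : (f ≫ g).m i k = f.m i j₀ ≫ g.m j₀ k :=
  Hom.comp_m_one f g i k j₀ hs

lemma comp_m_one' (f : F ⟶ G) (g : G ⟶ H) (i : F.ι) (k : H.ι) (j₀ : G.ι)
    (hs : ∀ j, g.m j k ≠ 0 → j = j₀) : (f ≫ g).m i k = f.m i j₀ ≫ g.m j₀ k :=
  Hom.comp_m_one' f g i k j₀ hs

lemma comp_m_fintype [Fintype G.ι] (f : F ⟶ G) (g : G ⟶ H) (i : F.ι) (k : H.ι) :
    (f ≫ g).m i k = ∑ j, f.m i j ≫ g.m j k :=
  comp_m_sum f g i k Finset.univ fun _ _ => Finset.mem_univ _

lemma comp_m_ne_zero (f : F ⟶ G) (g : G ⟶ H) (i : F.ι) (k : H.ι)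
    (h : (f ≫ g).m i k ≠ 0) : ∃ j, f.m i j ≠ 0 ∧ g.m j k ≠ 0 := by
  rw [comp_m_supp] at h
  obtain ⟨j, hj, hne⟩ := Finset.exists_ne_zero_of_sum_ne_zero h
  refine ⟨j, (Hom.mem_supp _ _ _).1 hj, ?_⟩
  intro h0
  rw [h0, comp_zero] at hne
  exact hne rfl

@[simp]
lemma id_m_self (F : Fam P) (i : F.ι) : (𝟙 F : F ⟶ F).m i i = 𝟙 _ := by
  change (Hom.id F).m i i = _
  simp [Hom.id]

lemma id_m_ne (F : Fam P) {i j : F.ι} (h : i ≠ j) : (𝟙 F : F ⟶ F).m i j = 0 := by
  change (Hom.id F).m i j = _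
  simp [Hom.id, h]

lemma id_m (F : Fam P) [DecidableEq F.ι] (i j : F.ι) :
    (𝟙 F : F ⟶ F).m i j = if h : i = j then eqToHom (by rw [h]) else 0 := by
  by_cases h : i = j
  · subst h; simp
  · rw [id_m_ne F h, dif_neg h]

/-! ### Preadditive structure -/

noncomputable instance : AddCommGroup (F ⟶ G) where
  add f g := ⟨fun i j => f.m i j + g.m i j, fun i => by
    refine ((f.fin i).union (g.fin i)).subset fun j hj => ?_
    by_contra hne
    simp only [Set.mem_union, Set.mem_ofPred_eq, not_or, not_not] at hne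
    exact hj (by rw [hne.1, hne.2, add_zero])⟩
  zero := ⟨fun _ _ => 0, fun i => by simp⟩
  neg f := ⟨fun i j => - f.m i j, fun i => by
    refine (f.fin i).subset fun j hj => ?_
    intro h0
    exact hj (by rw [h0, neg_zero])⟩
  sub f g := ⟨fun i j => f.m i j - g.m i j, fun i => by
    refine ((f.fin i).union (g.fin i)).subset fun j hj => ?_
    by_contra hne
    simp only [Set.mem_union, Set.mem_ofPred_eq, not_or, not_not] at hne
    exact hj (by rw [hne.1, hne.2, sub_zero])⟩
  nsmul n f := ⟨fun i j => n • f.m i j, fun i => by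
    refine (f.fin i).subset fun j hj => ?_
    intro h0
    exact hj (by rw [h0, smul_zero])⟩
  zsmul n f := ⟨fun i j => n • f.m i j, fun i => by
    refine (f.fin i).subset fun j hj => ?_
    intro h0
    exact hj (by rw [h0, smul_zero])⟩
  add_assoc f g h := Hom.ext (funext fun i => funext fun j => add_assoc _ _ _)
  zero_add f := Hom.ext (funext fun i => funext fun j => zero_add _)
  add_zero f := Hom.ext (funext fun i => funext fun j => add_zero _)
  add_comm f g := Hom.ext (funext fun i => funext fun j => add_comm _ _)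
  neg_add_cancel f := Hom.ext (funext fun i => funext fun j => neg_add_cancel _)
  sub_eq_add_neg f g := Hom.ext (funext fun i => funext fun j => sub_eq_add_neg _ _)
  nsmul_zero f := Hom.ext (funext fun i => funext fun j => zero_smul ℕ (f.m i j))
  nsmul_succ n f := Hom.ext (funext fun i => funext fun j => succ_nsmul (f.m i j) n)
  zsmul_zero' f := Hom.ext (funext fun i => funext fun j => zero_smul ℤ (f.m i j))
  zsmul_succ' n f := Hom.ext (funext fun i => funext fun j =>
    SubNegMonoid.zsmul_succ' n (f.m i j))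
  zsmul_neg' n f := Hom.ext (funext fun i => funext fun j =>
    SubNegMonoid.zsmul_neg' n (f.m i j))

@[simp] lemma add_m (f g : F ⟶ G) (i j) : (f + g).m i j = f.m i j + g.m i j := rfl
@[simp] lemma zero_m (i j) : (0 : F ⟶ G).m i j = 0 := rfl
@[simp] lemma neg_m (f : F ⟶ G) (i j) : (-f).m i j = - f.m i j := rfl
@[simp] lemma sub_m (f g : F ⟶ G) (i j) : (f - g).m i j = f.m i j - g.m i j := rfl
@[simp] lemma nsmul_m (n : ℕ) (f : F ⟶ G) (i j) : (n • f).m i j = n • f.m i j := rfl
@[simp] lemma zsmul_m (n : ℤ) (f : F ⟶ G) (i j) : (n • f).m i j = n • f.m i j := rfl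

noncomputable instance : Preadditive (Fam P) where
  add_comp F G H f f' g := by
    classical
    ext i k
    have h1 : ∀ j, (f + f').m i j ≠ 0 → j ∈ Hom.supp f i ∪ Hom.supp f' i := by
      intro j hj
      by_contra hne
      simp only [Finset.mem_union, Hom.mem_supp, not_or, not_not] at hne
      exact hj (by rw [add_m, hne.1, hne.2, add_zero])
    rw [comp_m_sum _ _ i k _ h1, add_m,
      comp_m_sum f g i k (Hom.supp f i ∪ Hom.supp f' i)
        (fun j hj => Finset.mem_union_left _ ((Hom.mem_supp _ _ _).2 hj)),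
      comp_m_sum f' g i k (Hom.supp f i ∪ Hom.supp f' i)
        (fun j hj => Finset.mem_union_right _ ((Hom.mem_supp _ _ _).2 hj)),
      ← Finset.sum_add_distrib]
    exact Finset.sum_congr rfl fun j _ => Preadditive.add_comp _ _ _ _ _ _
  comp_add F G H f g g' := by
    ext i k
    rw [comp_m_supp, add_m, comp_m_supp, comp_m_supp, ← Finset.sum_add_distrib]
    exact Finset.sum_congr rfl fun j _ => Preadditive.comp_add _ _ _ _ _ _

@[simp]
lemma sum_m {α : Type*} (s : Finset α) (f : α → (F ⟶ G)) (i j) :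
    (∑ a ∈ s, f a).m i j = ∑ a ∈ s, (f a).m i j := by
  classical
  induction s using Finset.induction_on with
  | empty => simp
  | insert a s ha ih => rw [Finset.sum_insert ha, Finset.sum_insert ha, add_m, ih]

/-! ### Monomial matrices -/

/-- The matrix with a single entry `φ i : X i ⟶ Y (e i)` in each row. -/
noncomputable def diag (e : F.ι → G.ι) (φ : ∀ i, F.X i ⟶ G.X (e i)) : F ⟶ G := by
  classical
  exact
  { m := fun i j => if h : e i = j then φ i ≫ eqToHom (by rw [h]) else 0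
    fin := fun i => by
      refine (Set.finite_singleton (e i)).subset fun j hj => ?_
      by_contra hne
      apply hj
      rw [dif_neg]
      exact fun h => hne (by rw [h]; rfl) }

@[simp]
lemma diag_m_self (e : F.ι → G.ι) (φ : ∀ i, F.X i ⟶ G.X (e i)) (i : F.ι) :
    (diag e φ).m i (e i) = φ i := by
  simp [diag]

lemma diag_m_ne (e : F.ι → G.ι) (φ : ∀ i, F.X i ⟶ G.X (e i)) {i : F.ι} {j : G.ι}
    (h : e i ≠ j) : (diag e φ).m i j = 0 := by
  simp [diag, h]

lemma diag_m_of_eq (e : F.ι → G.ι) (φ : ∀ i, F.X i ⟶ G.X (e i)) {i : F.ι} {j : G.ι}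
    (h : e i = j) : (diag e φ).m i j = φ i ≫ eqToHom (by rw [h]) := by
  subst h; simp

lemma diag_m_ne_zero (e : F.ι → G.ι) (φ : ∀ i, F.X i ⟶ G.X (e i)) {i : F.ι} {j : G.ι}
    (h : (diag e φ).m i j ≠ 0) : e i = j := by
  by_contra hne
  exact h (diag_m_ne e φ hne)

lemma diag_comp_m (e : F.ι → G.ι) (φ : ∀ i, F.X i ⟶ G.X (e i)) (g : G ⟶ H)
    (i : F.ι) (k : H.ι) : (diag e φ ≫ g).m i k = φ i ≫ g.m (e i) k := by
  rw [comp_m_one _ _ i k (e i) (fun j hj => (diag_m_ne_zero e φ hj).symm), diag_m_self]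

lemma diag_comp_diag (e : F.ι → G.ι) (φ : ∀ i, F.X i ⟶ G.X (e i)) (e' : G.ι → H.ι)
    (φ' : ∀ i, G.X i ⟶ H.X (e' i)) :
    diag e φ ≫ diag e' φ' = diag (fun i => e' (e i)) (fun i => φ i ≫ φ' (e i)) := by
  ext i k
  rw [diag_comp_m]
  by_cases h : e' (e i) = k
  · subst h
    rw [diag_m_self]
    exact (diag_m_self (G := H) (fun i => e' (e i)) (fun i => φ i ≫ φ' (e i)) i).symm
  · rw [diag_m_ne _ _ h, diag_m_ne (fun i => e' (e i)) _ h, comp_zero]

lemma id_eq_diag (F : Fam P) : 𝟙 F = diag (fun i => i) (fun _ => 𝟙 _) := by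
  ext i j
  by_cases h : i = j
  · subst h
    rw [id_m_self]
    exact (diag_m_self (F := F) (G := F) (fun i => i) (fun i => 𝟙 _) i).symm
  · rw [id_m_ne F h, diag_m_ne (fun i => i) _ h]

/-- Column computation for a monomial matrix along an injective map. -/
lemma comp_diag_m (f : F ⟶ G) (e : G.ι → H.ι) (he : Function.Injective e)
    (φ : ∀ i, G.X i ⟶ H.X (e i)) (i : F.ι) (j : G.ι) :
    (f ≫ diag e φ).m i (e j) = f.m i j ≫ φ j := by
  rw [comp_m_one' _ _ i (e j) j (fun j' hj => he (diag_m_ne_zero e φ hj)), diag_m_self]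

lemma comp_diag_m_ne (f : F ⟶ G) (e : G.ι → H.ι) (φ : ∀ i, G.X i ⟶ H.X (e i))
    (i : F.ι) (k : H.ι) (hk : ∀ j, e j ≠ k) : (f ≫ diag e φ).m i k = 0 := by
  by_contra h
  obtain ⟨j, _, hj⟩ := comp_m_ne_zero _ _ _ _ h
  exact hk j (diag_m_ne_zero e φ hj)

lemma diag_ext (e : F.ι → G.ι) {φ φ' : ∀ i, F.X i ⟶ G.X (e i)} (h : ∀ i, φ i = φ' i) :
    diag e φ = diag e φ' := by
  have : φ = φ' := funext h
  rw [this]

end Fam

end Pool.Agent.H75.TT
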