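import Pool.Agent.H75.TT.Fam

/-!
Binary sums, small coproducts, homogeneous matrices, signs.
-/

open CategoryTheory CategoryTheory.Limits

namespace Pool.Agent.H75.TT

namespace Fam

variable {P : Type} [Category.{0} P] [Preadditive P]

/-! ### Homogeneous matrices -/

/-- A matrix is homogeneous of degree `n` for the given degree functions. -/
def Homog {F G : Fam P} (a : F.ι → ℤ) (b : G.ι → ℤ) (n : ℤ) (f : F ⟶ G) : Prop :=
  ∀ i j, f.m i j ≠ 0 → b j = a i + n

namespace Homog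

variable {F G H : Fam P} {a : F.ι → ℤ} {b : G.ι → ℤ} {c : H.ι → ℤ} {n m : ℤ}

lemma m_eq_zero {f : F ⟶ G} (hf : Homog a b n f) {i : F.ι} {j : G.ι} (h : b j ≠ a i + n) :
    f.m i j = 0 := by
  by_contra h'
  exact h (hf i j h')

lemma zero : Homog a b n (0 : F ⟶ G) := fun i j h => absurd (zero_m i j) h

lemma id : Homog a a 0 (𝟙 F) := by
  intro i j h
  by_cases hij : i = j
  · subst hij; simp
  · exact absurd (id_m_ne F hij) h

lemma comp {f : F ⟶ G} {g : G ⟶ H} (hf : Homog a b n f) (hg : Homog b c m g) :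
    Homog a c (n + m) (f ≫ g) := by
  intro i k h
  obtain ⟨j, h1, h2⟩ := comp_m_ne_zero f g i k h
  rw [hg j k h2, hf i j h1, add_assoc]

lemma comp' {f : F ⟶ G} {g : G ⟶ H} {k : ℤ} (hf : Homog a b n f) (hg : Homog b c m g)
    (h : n + m = k) : Homog a c k (f ≫ g) := h ▸ hf.comp hg

lemma add {f g : F ⟶ G} (hf : Homog a b n f) (hg : Homog a b n g) : Homog a b n (f + g) := by
  intro i j h
  by_cases h1 : f.m i j = 0
  · by_cases h2 : g.m i j = 0
    · exact absurd (by rw [add_m, h1, h2, add_zero]) h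
    · exact hg i j h2
  · exact hf i j h1

lemma neg {f : F ⟶ G} (hf : Homog a b n f) : Homog a b n (-f) := by
  intro i j h
  exact hf i j (fun h1 => h (by rw [neg_m, h1, neg_zero]))

lemma sub {f g : F ⟶ G} (hf : Homog a b n f) (hg : Homog a b n g) : Homog a b n (f - g) := by
  rw [sub_eq_add_neg]; exact hf.add hg.neg

lemma zsmul {f : F ⟶ G} (hf : Homog a b n f) (k : ℤ) : Homog a b n (k • f) := by
  intro i j h
  exact hf i j (fun h1 => h (by rw [zsmul_m, h1, smul_zero]))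

lemma diag {e : F.ι → G.ι} {φ : ∀ i, F.X i ⟶ G.X (e i)} (h : ∀ i, b (e i) = a i + n) :
    Homog a b n (diag e φ) := by
  intro i j hne
  rw [← diag_m_ne_zero e φ hne]
  exact h i

/-- Change of degree functions. -/
lemma congr {a' : F.ι → ℤ} {b' : G.ι → ℤ} {n' : ℤ} {f : F ⟶ G} (hf : Homog a b n f)
    (h : ∀ i j, b j = a i + n → b' j = a' i + n') : Homog a' b' n' f :=
  fun i j hne => h i j (hf i j hne)

end Homog

/-! ### Signs -/

/-- The diagonal sign matrix `(-1) ^ (deg i)`. -/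
noncomputable def sgn {F : Fam P} (a : F.ι → ℤ) : F ⟶ F :=
  diag (fun i => i) (fun i => ((a i).negOnePow : ℤ) • 𝟙 (F.X i))

lemma sgn_homog {F : Fam P} (a : F.ι → ℤ) : Homog a a 0 (sgn a) :=
  Homog.diag fun _ => (add_zero _).symm

lemma sgn_comp_m {F G : Fam P} (a : F.ι → ℤ) (f : F ⟶ G) (i : F.ι) (j : G.ι) :
    (sgn a ≫ f).m i j = ((a i).negOnePow : ℤ) • f.m i j := by
  rw [sgn, diag_comp_m]
  simp

lemma comp_sgn_m {F G : Fam P} (b : G.ι → ℤ) (f : F ⟶ G) (i : F.ι) (j : G.ι) :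
    (f ≫ sgn b).m i j = ((b j).negOnePow : ℤ) • f.m i j := by
  have := comp_diag_m f (fun j : G.ι => j) (fun _ _ h => h)
    (fun j => ((b j).negOnePow : ℤ) • 𝟙 (G.X j)) i j
  rw [sgn]
  rw [this]
  simp

@[simp]
lemma sgn_sgn {F : Fam P} (a : F.ι → ℤ) : sgn a ≫ sgn a = 𝟙 F := by
  ext i j
  rw [sgn_comp_m]
  by_cases h : i = j
  · subst h
    rw [sgn, diag_m_self, id_m_self, smul_smul]
    rcases Int.units_eq_one_or (a i).negOnePow with h | h <;> simp [h]
  · rw [sgn, diag_m_ne _ _ h, id_m_ne F h, smul_zero]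

/-- A homogeneous matrix of degree `n` commutes with signs up to `(-1) ^ n`. -/
lemma comp_sgn {F G : Fam P} {a : F.ι → ℤ} {b : G.ι → ℤ} {n : ℤ} {f : F ⟶ G}
    (hf : Homog a b n f) : f ≫ sgn b = (n.negOnePow : ℤ) • (sgn a ≫ f) := by
  ext i j
  rw [comp_sgn_m, zsmul_m, sgn_comp_m]
  by_cases h : f.m i j = 0
  · rw [h]; simp
  · rw [hf i j h, Int.negOnePow_add, smul_smul]
    congr 1
    push_cast
    ring

lemma comp_sgn_zero {F G : Fam P} {a : F.ι → ℤ} {b : G.ι → ℤ} {f : F ⟶ G}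
    (hf : Homog a b 0 f) : f ≫ sgn b = sgn a ≫ f := by
  rw [comp_sgn hf]; simp

lemma comp_sgn_one {F G : Fam P} {a : F.ι → ℤ} {b : G.ι → ℤ} {f : F ⟶ G}
    (hf : Homog a b 1 f) : f ≫ sgn b = - (sgn a ≫ f) := by
  rw [comp_sgn hf]; simp

/-! ### Binary sums -/

/-- Disjoint union of two families. -/
abbrev sum (F G : Fam P) : Fam P := ⟨F.ι ⊕ G.ι, Sum.elim F.X G.X⟩

variable {F G : Fam P}

/-- First inclusion. -/
noncomputable def inl (F G : Fam P) : F ⟶ sum F G :=
  diag (G := sum F G) Sum.inl (fun i => 𝟙 (F.X i))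

/-- Second inclusion. -/
noncomputable def inr (F G : Fam P) : G ⟶ sum F G :=
  diag (G := sum F G) Sum.inr (fun i => 𝟙 (G.X i))

/-- First projection. -/
noncomputable def fst (F G : Fam P) : sum F G ⟶ F where
  m := fun i j => match i with
    | Sum.inl i => (𝟙 F : F ⟶ F).m i j
    | Sum.inr _ => 0
  fin := fun i => match i with
    | Sum.inl i => (𝟙 F : F ⟶ F).fin i
    | Sum.inr _ => Set.finite_empty.subset fun _ hj => absurd rfl hj

/-- Second projection. -/
noncomputable def snd (F G : Fam P) : sum F G ⟶ G where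
  m := fun i j => match i with
    | Sum.inl _ => 0
    | Sum.inr i => (𝟙 G : G ⟶ G).m i j
  fin := fun i => match i with
    | Sum.inl _ => Set.finite_empty.subset fun _ hj => absurd rfl hj
    | Sum.inr i => (𝟙 G : G ⟶ G).fin i

lemma inl_comp_m {H : Fam P} (f : sum F G ⟶ H) (i : F.ι) (k : H.ι) :
    (inl F G ≫ f).m i k = f.m (Sum.inl i) k := by
  exact (diag_comp_m (G := sum F G) Sum.inl _ f i k).trans (Category.id_comp _)

lemma inr_comp_m {H : Fam P} (f : sum F G ⟶ H) (i : G.ι) (k : H.ι) :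
    (inr F G ≫ f).m i k = f.m (Sum.inr i) k := by
  exact (diag_comp_m (G := sum F G) Sum.inr _ f i k).trans (Category.id_comp _)

@[reassoc (attr := simp)]
lemma inl_fst (F G : Fam P) : inl F G ≫ fst F G = 𝟙 F := by
  ext i k; rw [inl_comp_m]; rfl

@[reassoc (attr := simp)]
lemma inl_snd (F G : Fam P) : inl F G ≫ snd F G = 0 := by
  ext i k; rw [inl_comp_m]; rfl

@[reassoc (attr := simp)]
lemma inr_fst (F G : Fam P) : inr F G ≫ fst F G = 0 := by
  ext i k; rw [inr_comp_m]; rfl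

@[reassoc (attr := simp)]
lemma inr_snd (F G : Fam P) : inr F G ≫ snd F G = 𝟙 G := by
  ext i k; rw [inr_comp_m]; rfl

lemma sum_ext {H : Fam P} {f g : sum F G ⟶ H} (h1 : inl F G ≫ f = inl F G ≫ g)
    (h2 : inr F G ≫ f = inr F G ≫ g) : f = g := by
  ext i k
  rcases i with i | i
  · have := congrArg (fun t : F ⟶ H => t.m i k) h1
    simp only [inl_comp_m] at this
    exact this
  · have := congrArg (fun t : G ⟶ H => t.m i k) h2
    simp only [inr_comp_m] at this
    exact this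

@[simp]
lemma total (F G : Fam P) : fst F G ≫ inl F G + snd F G ≫ inr F G = 𝟙 (sum F G) := by
  apply sum_ext
  · simp
  · simp

lemma sum_ext' {H : Fam P} {f g : H ⟶ sum F G} (h1 : f ≫ fst F G = g ≫ fst F G)
    (h2 : f ≫ snd F G = g ≫ snd F G) : f = g := by
  rw [← Category.comp_id f, ← Category.comp_id g, ← total, Preadditive.comp_add,
    Preadditive.comp_add, ← Category.assoc, ← Category.assoc, ← Category.assoc,
    ← Category.assoc, h1, h2]

lemma fst_m_inl (i j : F.ι) : (fst F G).m (Sum.inl i) j = (𝟙 F : F ⟶ F).m i j := rfl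
lemma fst_m_inr (i : G.ι) (j : F.ι) : (fst F G).m (Sum.inr i) j = 0 := rfl
lemma snd_m_inl (i : F.ι) (j : G.ι) : (snd F G).m (Sum.inl i) j = 0 := rfl
lemma snd_m_inr (i j : G.ι) : (snd F G).m (Sum.inr i) j = (𝟙 G : G ⟶ G).m i j := rfl

lemma inl_homog {a : F.ι → ℤ} {b : G.ι → ℤ} {a' : F.ι → ℤ} {n : ℤ}
    (h : ∀ i, a i = a' i + n) :
    Homog (G := sum F G) a' (Sum.elim a b) n (inl F G) :=
  Homog.diag (G := sum F G) fun i => h i

lemma inr_homog {a : F.ι → ℤ} {b : G.ι → ℤ} {b' : G.ι → ℤ} {n : ℤ}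
    (h : ∀ i, b i = b' i + n) :
    Homog (G := sum F G) b' (Sum.elim a b) n (inr F G) :=
  Homog.diag (G := sum F G) fun i => h i

lemma fst_homog {a : F.ι → ℤ} {b : G.ι → ℤ} {a' : F.ι → ℤ} {n : ℤ}
    (h : ∀ i, a' i = a i + n) :
    Homog (F := sum F G) (Sum.elim a b) a' n (fst F G) := by
  rintro (i | i) j hne
  · rw [fst_m_inl] at hne
    by_cases hij : i = j
    · subst hij; exact h i
    · exact absurd (id_m_ne F hij) hne
  · exact absurd (fst_m_inr i j) hne

lemma snd_homog {a : F.ι → ℤ} {b : G.ι → ℤ} {b' : G.ι → ℤ} {n : ℤ}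
    (h : ∀ i, b' i = b i + n) :
    Homog (F := sum F G) (Sum.elim a b) b' n (snd F G) := by
  rintro (i | i) j hne
  · exact absurd (snd_m_inl i j) hne
  · rw [snd_m_inr] at hne
    by_cases hij : i = j
    · subst hij; exact h i
    · exact absurd (id_m_ne G hij) hne

/-! ### Small coproducts -/

/-- Disjoint union of a small family of families. -/
abbrev sigma {α : Type} (F : α → Fam P) : Fam P := ⟨Σ a, (F a).ι, fun p => (F p.1).X p.2⟩

section sigma

variable {α : Type} (F : α → Fam P)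

/-- Inclusion of a component. -/
noncomputable def inc (a : α) : F a ⟶ sigma F :=
  diag (G := sigma F) (fun i => ⟨a, i⟩) (fun i => 𝟙 ((F a).X i))

/-- Morphisms out of a coproduct. -/
def desc {H : Fam P} (f : ∀ a, F a ⟶ H) : sigma F ⟶ H where
  m := fun p k => (f p.1).m p.2 k
  fin := fun p => (f p.1).fin p.2

lemma inc_comp_m {H : Fam P} (f : sigma F ⟶ H) (a : α) (i : (F a).ι) (k : H.ι) :
    (inc F a ≫ f).m i k = f.m ⟨a, i⟩ k := by
  exact (diag_comp_m (G := sigma F) (fun i => ⟨a, i⟩) _ f i k).trans (Category.id_comp _)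

@[reassoc (attr := simp)]
lemma inc_desc {H : Fam P} (f : ∀ a, F a ⟶ H) (a : α) : inc F a ≫ desc F f = f a := by
  ext i k; rw [inc_comp_m]; rfl

lemma sigma_ext {H : Fam P} {f g : sigma F ⟶ H} (h : ∀ a, inc F a ≫ f = inc F a ≫ g) : f = g := by
  ext ⟨a, i⟩ k
  have := congrArg (fun t : F a ⟶ H => t.m i k) (h a)
  simp only [inc_comp_m] at this
  exact this

lemma desc_m {H : Fam P} (f : ∀ a, F a ⟶ H) (a : α) (i : (F a).ι) (k : H.ι) :
    (desc F f).m ⟨a, i⟩ k = (f a).m i k := rfl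

end sigma

end Fam

end Pool.Agent.H75.TT
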