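import Pool.Agent.H59.TT.OnePoint

/-!
Existence of the Balmer-Favi idempotents and failure of minimality in the one-point case.
-/

open CategoryTheory CategoryTheory.Limits CategoryTheory.Pretriangulated MonoidalCategory
open scoped ZeroObject

namespace Pool.Agent.H75.TT

open Pool.Agent.H59.TT Pool.Agent.H95.TT

variable {X K0 K2 : BigTT.{0}} {F0 : GeomFunctor X K0} {F2 : GeomFunctor X K2}

/-- Every Balmer-Favi idempotent is isomorphic to the unit. -/
lemma nonempty_iso_unit (h : PinchPair X K0 K2 F0 F2) (P : Spc X.C) (g : X.C)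
    (hg : IsBalmerFavi P g) : Nonempty (g ≅ 𝟙_ X.C) := by
  obtain ⟨Y, Z, e, f, e', f', -, -, hYZ, hef, hef', ⟨i⟩⟩ := hg
  have hPY : P ∈ Y ∩ Zᶜ := by rw [← hYZ]; exact Set.mem_singleton _
  have hf : IsZero f := by
    obtain ⟨J, G, hG, hgen⟩ := RigidlyCompactlyGenerated.generated (C := X.C)
    obtain ⟨a, b, c, -, -, h3⟩ := hef
    refine hgen f fun j n x => h3 (G j) (hG j) ?_ n x
    intro Q _
    rw [eq_zeroPrime h Q, ← eq_zeroPrime h P]
    exact hPY.1
  have he' : IsZero e' := by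
    obtain ⟨a, b, c, -, h2, -⟩ := hef'
    refine h2 _ isLocIdeal_isZero ?_
    rintro s ⟨hs, hsZ⟩
    by_contra hs0
    refine hPY.2 (hsZ ?_)
    intro hm
    rw [eq_zeroPrime h P] at hm
    exact hs0 hm
  have e1 : Nonempty (e ≅ 𝟙_ X.C) := by
    obtain ⟨a, b, c, hT, -, -⟩ := hef
    have : IsIso a := (Tri.isZero3_iff (f := a) (g := b) (h := c) hT).1 hf
    exact ⟨asIso a⟩
  have f1 : Nonempty (f' ≅ 𝟙_ X.C) := by
    obtain ⟨a, b, c, hT, -, -⟩ := hef'
    have : IsIso b := (Tri.isZero1_iff (f := a) (g := b) (h := c) hT).1 he'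
    exact ⟨(asIso b).symm⟩
  obtain ⟨e1⟩ := e1
  obtain ⟨f1⟩ := f1
  exact ⟨i ≪≫ (whiskerRightIso e1 f') ≪≫ λ_ f' ≪≫ f1⟩

/-- Minimality fails at every point. -/
theorem not_minimal (h : PinchPair X K0 K2 F0 F2) (B : X.C) (hB : ¬ IsZero B)
    (hB0 : IsZero (F0.F.obj B)) (P : Spc X.C) (g : X.C) (hg : IsBalmerFavi P g) :
    ¬ IsMinimalLoc (LocId g) := by
  rintro ⟨-, hmin⟩
  obtain ⟨i1⟩ := nonempty_iso_unit h P g hg
  have hall : ∀ x : X.C, LocId g x := by
    intro x L hL hs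
    have h1 : L (𝟙_ X.C) := hL.iso (hs _ rfl) ⟨i1⟩
    exact hL.iso (hL.ideal (x := x) h1) ⟨ρ_ x⟩
  have h1 := hmin (fun M : X.C => IsZero (F0.F.obj M)) (isLocIdeal_isZero_map F0)
    (fun x _ => hall x) ⟨B, hB0, hB⟩ (𝟙_ X.C) (hall _)
  exact not_isZero_map_unit F0 h.field0 h1

/-- The Balmer-Favi idempotents exist. -/
theorem isBalmerFavi_unit (h : PinchPair X K0 K2 F0 F2) (P : Spc X.C) :
    IsBalmerFavi P (𝟙_ X.C ⊗ 𝟙_ X.C) := by
  have : Subsingleton (Spc X.C) :=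
    ⟨fun a b => (eq_zeroPrime h a).trans (eq_zeroPrime h b).symm⟩
  refine ⟨Set.univ, ∅, 𝟙_ X.C, 0, 0, 𝟙_ X.C, isThomason_univ, isThomason_empty, ?_, ?_, ?_,
    ⟨Iso.refl _⟩⟩
  · rw [Set.compl_empty, Set.inter_univ]
    exact Set.eq_univ_of_forall fun Q => Subsingleton.elim _ _
  · refine ⟨𝟙 _, 0, 0, contractible_distinguished _, ?_, ?_⟩
    · intro L _ hs
      exact hs _ ⟨isCpt_unit, fun Q _ => Set.mem_univ Q⟩
    · intro x _ _ n g
      exact (isZero_zero X.C).eq_of_tgt _ _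
  · refine ⟨0, 𝟙 _, 0, contractible_distinguished₁ _, ?_, ?_⟩
    · intro L hL _
      exact hL.zero (isZero_zero X.C)
    · intro x hx hs n g
      have hz : IsZero x := by
        by_contra hx0
        exact hs (show P ∈ supp x from fun hm => hx0 (by
          rw [eq_zeroPrime h P] at hm
          exact hm))
      exact ((shiftFunctor X.C n).map_isZero hz).eq_of_src _ _

end Pool.Agent.H75.TT
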