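import Pool.Agent.H75.TT.Big
import Pool.Agent.H75.TT.OnePoint2
import Pool.Agent.H39.TT.Tors
import Pool.Agent.H20.TT.TwoPoint
import Pool.Agent.H86.TT.Cons
import Pool.Agent.H89.TT.ObjB2
import Pool.Agent.H89.TT.DiagT

/-!
Assembly of the counterexample.
-/

open CategoryTheory CategoryTheory.Limits CategoryTheory.Pretriangulated MonoidalCategory

namespace Pool.Agent.H75.TT

open Fam Pool.Agent.H47.TT Pool.Agent.H95.TT Pool.Agent.H55.TT

/-! ### Reduction of conservativity on compact objects to finite complexes -/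

section nak

variable {P P' : Type} [Category.{0} P] [Preadditive P] [Category.{0} P'] [Preadditive P']

/-- If an exact functor is conservative on finite complexes then it is conservative on
compact objects. -/
theorem conservative_of_finite (F : T P ⥤ T P') [F.CommShift ℤ] [F.IsTriangulated] [F.Additive]
    (hF : ∀ A : DG P, Finite A.F.ι → IsZero (F.obj (T.Q.obj A)) → IsZero (T.Q.obj A : T P))
    (c : T P) (hc : IsCpt c) (h0 : IsZero (F.obj c)) : IsZero c := by
  obtain ⟨A, hA, ⟨r⟩⟩ := T.exists_retract_finite hc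
  obtain ⟨g, hg⟩ := (T.Q : DG P ⥤ T P).map_surjective (𝟙 (T.Q.obj A) - r.r ≫ r.i)
  have hFe : F.map (r.r ≫ r.i) = 0 := by
    rw [F.map_comp, h0.eq_of_src (F.map r.i) 0, comp_zero]
  have hFg : F.map (T.Q.map g) = 𝟙 _ := by
    rw [hg, F.map_sub, hFe, sub_zero, F.map_id]
  have hd := T.coneTriT_distinguished g
  have hz : IsZero (F.obj (T.Q.obj (DG.cone g))) := by
    have h1 := F.map_distinguished _ hd
    have h2 := (Triangle.isZero₃_iff_isIso₁ _ h1).2 (by
      change IsIso (F.map (T.Q.map g))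
      rw [hFg]
      infer_instance)
    exact h2
  have hfin : Finite (DG.cone g).F.ι := by
    have : Finite (A.F.ι ⊕ A.F.ι) := inferInstance
    exact this
  have hz' := hF (DG.cone g) hfin hz
  have hiso : IsIso (T.Q.map g : T.Q.obj A ⟶ (T.Q.obj A : T P)) :=
    (Triangle.isZero₃_iff_isIso₁ _ hd).1 hz'
  have he : (r.r ≫ r.i) ≫ (T.Q.map g : T.Q.obj A ⟶ (T.Q.obj A : T P)) = 0 := by
    rw [hg, Preadditive.comp_sub, Category.comp_id, Category.assoc, r.retract_assoc, sub_self]
  have he' : r.r ≫ r.i = 0 := by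
    rw [← cancel_mono (T.Q.map g : T.Q.obj A ⟶ (T.Q.obj A : T P)), he, zero_comp]
  rw [IsZero.iff_id_eq_zero]
  calc 𝟙 c = r.i ≫ (r.r ≫ r.i) ≫ r.r := by simp
    _ = 0 := by rw [he']; simp

end nak

/-! ### Rigidity of the categories -/

instance : RigidP Obj where
  dual X := ⟨{ rightDual := _, exact := pairing X }⟩

instance {C : Type} [Category.{0} C] [Preadditive C] [MonoidalCategory C]
    [SymmetricCategory C] (S : TensorSub C) : RigidP S.Cat where
  dual X := TensorSub.nonempty_hasRightDual X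

instance {C : Type} [Category.{0} C] [Preadditive C] [MonoidalCategory C]
    [SymmetricCategory C] (S : TensorSub C) : RigidP (Diag S) where
  dual X := Diag.nonempty_hasRightDual X

/-! ### Field property of `C0` -/

/-- The linear structure of `C0`. -/
noncomputable instance : Linear Hyperreal pinch.C0.Cat :=
  TensorSub.linear Hyperreal fun a _ hf => C0_smul_mem a hf

theorem perfPair_C0 : PerfPair Hyperreal pinch.C0.Cat where
  one_ne := fun h => one_ne_zero_C2 (congrArg (fun t : 𝟙_ pinch.C0.Cat ⟶ 𝟙_ pinch.C0.Cat => t.f) h)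
  end_one c := by
    obtain ⟨a, ha⟩ := end_one_C2 c.f
    exact ⟨a, TensorSub.hom_ext ha⟩
  basis X := by
    obtain ⟨r, u, v, hu, hv, h1, h2⟩ := dual_C0 X.of
    refine ⟨r, fun i => ⟨u i, hu i⟩, fun i => ⟨v i, hv i⟩, ?_, ?_⟩
    · intro x
      apply TensorSub.hom_ext
      rw [TensorSub.sum_f]
      exact h1 x.f x.mem
    · intro y
      apply TensorSub.hom_ext
      rw [TensorSub.sum_f]
      exact h2 y.f y.mem

/-! ### The counterexample -/

/-- The pinched tt-category. -/
noncomputable abbrev XX : BigTT.{0} := BigT pinch.PP.Cat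
/-- The tt-category of the weight zero part. -/
noncomputable abbrev KK0 : BigTT.{0} := BigT pinch.C0.Cat
/-- The tt-category of the big field. -/
noncomputable abbrev KK2 : BigTT.{0} := BigT Obj
/-- The stratified tt-category. -/
noncomputable abbrev SS : BigTT.{0} := BigT (Diag pinch.C0)

noncomputable abbrev FF0 : GeomFunctor XX KK0 := geomMap pinch.P0
noncomputable abbrev FF2 : GeomFunctor XX KK2 := geomMap pinch.P2
noncomputable abbrev FF : GeomFunctor XX SS := geomMap pinch.PD
noncomputable abbrev GG1 : GeomFunctor SS KK0 := geomMap (Diag.p1 pinch.C0)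
noncomputable abbrev GG2 : GeomFunctor SS KK2 := geomMap (Diag.p2 pinch.C0)

theorem pinchPair : PinchPair XX KK0 KK2 FF0 FF2 where
  field0 := fieldLike perfPair_C0
  field2 := fieldLike perfPair
  joint t h0 h2 := isZero_of_mapT pinch t h0 h2
  nak0 t ht h0 := conservative_of_finite (T.mapT pinch.P0)
    (fun A hA h => isZero_of_P0 pinch A hA h) t ht h0
  nak2 t ht h2 := conservative_of_finite (T.mapT pinch.P2)
    (fun A hA h => isZero_of_P0 pinch A hA (Pool.Agent.H39.TT.tors_isZero A h)) t ht h2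

theorem splitPair : SplitPair SS KK0 KK2 GG1 GG2 where
  field1 := fieldLike perfPair_C0
  field2 := fieldLike perfPair
  full := T.diag_full
  faithful := T.diag_faithful

theorem conservative_FF : FF.Conservative := by
  intro t ht
  exact isZero_of_mapT pinch t (T.isZero_P0_of_PD pinch t ht) (T.isZero_P2_of_PD pinch t ht)

theorem exists_B : ∃ B : XX.C, ¬ IsZero B ∧ IsZero (FF0.F.obj B) := by
  exact Pool.Agent.H89.TT.exists_objB_pinch (T.isCpt_ofObj _)

theorem final : ∃ (T S : BigTT.{0}) (F : GeomFunctor T S), F.Conservative ∧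
    WeaklyNoetherian T.C ∧ WeaklyNoetherian S.C ∧ Stratified S.C ∧ ¬ Stratified T.C ∧
    (∃ g : Spc T.C → T.C, ∀ P, IsBalmerFavi P (g P)) ∧
    ∀ (P : Spc T.C) (g : T.C), IsBalmerFavi P g → ¬ IsMinimalLoc (LocId g) := by
  obtain ⟨B, hB, hB0⟩ := exists_B
  obtain ⟨h1, h2⟩ := Pool.Agent.H20.TT.twoPoint splitPair
  exact ⟨XX, SS, FF, conservative_FF, Pool.Agent.H59.TT.weaklyNoetherian pinchPair, h1, h2,
    Pool.Agent.H59.TT.not_stratified pinchPair B hB hB0,
    ⟨fun _ => 𝟙_ XX.C ⊗ 𝟙_ XX.C, fun P => isBalmerFavi_unit pinchPair P⟩,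
    fun P g hg => not_minimal pinchPair B hB hB0 P g hg⟩

end Pool.Agent.H75.TT
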