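import Pool.Agent.H75.TT.Coprod
import Pool.Agent.H95.TT.FinCell

/-!
Compactness and generation in `T P`.
-/

open CategoryTheory CategoryTheory.Limits CategoryTheory.Pretriangulated

namespace Pool.Agent.H75.TT

open Fam Pool.Agent.H47.TT Pool.Agent.H95.TT

variable {P : Type} [Category.{0} P] [Preadditive P]

namespace DG

variable {α : Type} (A : α → DG P)

lemma sigD_prj (a : α) : sigD A ≫ Fam.prj (fun a => (A a).F) a =
    Fam.prj (fun a => (A a).F) a ≫ (A a).d := by
  refine Fam.sigma_ext (fun a => (A a).F) fun b => ?_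
  rw [inc_sigD_assoc]
  by_cases h : b = a
  · subst h
    rw [Fam.inc_prj, Fam.inc_prj_assoc, Category.comp_id]
  · rw [Fam.inc_prj_ne _ h, comp_zero, ← Category.assoc, Fam.inc_prj_ne _ h, zero_comp]

/-- Projection to a component. -/
@[simps]
noncomputable def prj (a : α) : sigma A ⟶ A a where
  f := Fam.prj (fun a => (A a).F) a
  hf := by
    rintro ⟨b, i⟩ j hne
    by_cases h : b = a
    · subst h
      rw [Fam.prj_m] at hne
      by_cases hij : i = j
      · subst hij
        exact (add_zero _).symm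
      · exact absurd (id_m_ne _ hij) hne
    · exact absurd (Fam.prj_m_ne (fun a => (A a).F) a ⟨b, i⟩ j h) hne
  comm := sigD_prj A a

lemma sum_f {B C : DG P} {β : Type*} (s : Finset β) (f : β → (B ⟶ C)) :
    (∑ b ∈ s, f b).f = ∑ b ∈ s, (f b).f := by
  classical
  induction s using Finset.induction_on with
  | empty => rfl
  | insert a s ha ih => rw [Finset.sum_insert ha, Finset.sum_insert ha, add_f, ih]

lemma eq_sum_prj {B : DG P} (f : B ⟶ sigma A) (s : Finset α)
    (hs : ∀ i (p : (Fam.sigma (fun a => (A a).F)).ι), f.f.m i p ≠ 0 → p.1 ∈ s) :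
    f = ∑ a ∈ s, (f ≫ prj A a) ≫ inc A a := by
  apply DG.hom_ext
  rw [sum_f]
  exact Fam.eq_sum_prj (fun a => (A a).F) f.f s hs

lemma exists_finset {B : DG P} [Finite B.F.ι] (f : B ⟶ sigma A) : ∃ s : Finset α,
    ∀ i (p : (Fam.sigma (fun a => (A a).F)).ι), f.f.m i p ≠ 0 → p.1 ∈ s := by
  classical
  have : Fintype B.F.ι := Fintype.ofFinite _
  refine ⟨Finset.univ.biUnion fun i => (f.f.fin i).toFinset.image fun p => p.1, ?_⟩
  intro i p hp
  refine Finset.mem_biUnion.2 ⟨i, Finset.mem_univ _, Finset.mem_image.2 ⟨p, ?_, rfl⟩⟩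
  rw [Set.Finite.mem_toFinset]
  exact hp

end DG

namespace T

/-- Finite complexes are compact. -/
theorem isCpt_of_finite (A : DG P) [Finite A.F.ι] : IsCpt (Q.obj A : T P) := by
  rw [isCpt_iff]
  intro J Y f
  let B : J → DG P := fun j => (Y j).as
  change f ∈ FS (Q.obj A) (fun j => (Q.obj (B j) : T P))
  obtain ⟨g, hg⟩ := (Q : DG P ⥤ T P).map_surjective
    ((show (Q.obj A : T P) ⟶ ∐ fun j => (Q.obj (B j) : T P) from f) ≫ (sigmaIso B).hom)
  obtain ⟨s, hs⟩ := DG.exists_finset B g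
  have h1 := DG.eq_sum_prj B g s hs
  rw [mem_FS_iff]
  refine ⟨s, fun j => Q.map (g ≫ DG.prj B j), ?_⟩
  rw [← cancel_mono (sigmaIso B).hom, Preadditive.sum_comp]
  refine hg.symm.trans ?_
  have h2 : ∀ j, (Q.map (g ≫ DG.prj B j) ≫ Sigma.ι (fun j => (Q.obj (B j) : T P)) j) ≫
      (sigmaIso B).hom = Q.map ((g ≫ DG.prj B j) ≫ DG.inc B j) := by
    intro j
    rw [Category.assoc, ι_sigmaIso_hom, ← Q.map_comp]
  rw [Finset.sum_congr rfl fun j _ => h2 j, ← Q.map_sum, ← h1]

lemma isCpt_ofObj (X : P) : IsCpt (Q.obj (ofObj X) : T P) := by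
  have h : Finite Unit := inferInstance
  exact @isCpt_of_finite P _ _ (ofObj X) h

/-- The objects of `P` generate. -/
theorem gens_ofObj : Gens (fun X : P => (Q.obj (ofObj X) : T P)) := by
  intro Y hY
  obtain ⟨M⟩ := Y
  change IsZero (Q.obj M)
  obtain ⟨h, hh, e⟩ := DG.contractible (M := M) (by
    intro i q hq hqd
    let n : ℤ := - M.deg i
    let q' : DG.sh n (ofObj (M.F.X i)) ⟶ M :=
      { f := q
        hf := hq.congr (a' := fun _ => (0 : ℤ) - n) fun u j hj => by
          rw [hj]; ring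
        comm := by
          change ((n.negOnePow : ℤ) • (0 : one (M.F.X i) ⟶ one (M.F.X i))) ≫ q = q ≫ M.d
          rw [hqd, smul_zero, zero_comp] }
    have h0 : (Q.map q' : (Q.obj (DG.sh n (ofObj (M.F.X i))) : T P) ⟶ Q.obj M) = 0 := by
      have h1 := hY (M.F.X i) n
        (((Q : DG P ⥤ T P).commShiftIso n).inv.app (ofObj (M.F.X i)) ≫ Q.map q')
      refine (cancel_epi (((Q : DG P ⥤ T P).commShiftIso n).inv.app (ofObj (M.F.X i)))).1 ?_
      exact h1.trans (comp_zero (f := ((Q : DG P ⥤ T P).commShiftIso n).inv.app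
        (ofObj (M.F.X i)))).symm
    rw [Q_map_eq_zero_iff] at h0
    obtain ⟨r, hr, e⟩ := h0
    refine ⟨r, hr.congr fun u j hj => ?_, ?_⟩
    · change M.deg j = (0 : ℤ) - n + -1 at hj
      rw [hj]; simp only [n]; ring
    · change q = ((n.negOnePow : ℤ) • (0 : one (M.F.X i) ⟶ one (M.F.X i))) ≫
        (show one (M.F.X i) ⟶ M.F from r) + (show one (M.F.X i) ⟶ M.F from r) ≫ M.d at e
      rw [e, smul_zero, zero_comp, zero_add])
  exact DG.isZero_of_contraction M h hh e

/-- Finite cell objects are finite complexes. -/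
theorem exists_finite_of_finCell {Y : T P}
    (hY : FinCell (fun X : P => (Q.obj (ofObj X) : T P)) Y) :
    ∃ A : DG P, Finite A.F.ι ∧ Nonempty (Y ≅ Q.obj A) := by
  induction hY with
  | zero h =>
    refine ⟨DG.zeroObj, inferInstanceAs (Finite Empty), ⟨?_⟩⟩
    exact h.iso (Functor.map_isZero Q DG.isZero_zeroObj)
  | @cell X Y j n f g h hT hX ih =>
    obtain ⟨A, hA, ⟨e⟩⟩ := ih
    obtain ⟨φ, hφ⟩ := (Q : DG P ⥤ T P).map_surjective
      (((Q : DG P ⥤ T P).commShiftIso n).hom.app (ofObj j) ≫ f ≫ e.hom)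
    refine ⟨DG.cone φ, ?_, ⟨?_⟩⟩
    · have : Finite (Unit ⊕ A.F.ι) := inferInstance
      exact this
    · have hc : Triangle.mk f g h ∈ distTriang (T P) := hT
      have hd := coneTriT_distinguished φ
      exact Triangle.π₃.mapIso (isoTriangleOfIso₁₂ _ _ hc hd
        (((Q : DG P ⥤ T P).commShiftIso n).symm.app (ofObj j)) e (by
          change f ≫ e.hom = ((Q : DG P ⥤ T P).commShiftIso n).inv.app (ofObj j) ≫ Q.map φ
          rw [hφ]
          simp))

/-- Compact objects are retracts of finite complexes. -/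
theorem exists_retract_finite {c : T P} (hc : IsCpt c) :
    ∃ A : DG P, Finite A.F.ι ∧ Nonempty (Retract c (Q.obj A)) := by
  obtain ⟨E, hE, ⟨r⟩⟩ := exists_retract_finCell (fun X : P => isCpt_ofObj X) gens_ofObj hc
  obtain ⟨A, hA, ⟨e⟩⟩ := exists_finite_of_finCell hE
  exact ⟨A, hA, ⟨r.trans (Retract.ofIso e)⟩⟩

end T

end Pool.Agent.H75.TT
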