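import Pool.Agent.H75.TT.Cone

/-!
The pretriangulated structure on `T P`.
-/

open CategoryTheory CategoryTheory.Limits CategoryTheory.Pretriangulated

namespace Pool.Agent.H75.TT

open Fam

variable {P : Type} [Category.{0} P] [Preadditive P]

namespace T

variable {A B C D : DG P}

/-- Homotopy equivalences give isomorphisms. -/
@[simps]
noncomputable def isoMk (f : A ⟶ B) (g : B ⟶ A) (h1 : DG.Homotopic (f ≫ g) (𝟙 A))
    (h2 : DG.Homotopic (g ≫ f) (𝟙 B)) : (Q.obj A : T P) ≅ Q.obj B where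
  hom := Q.map f
  inv := Q.map g
  hom_inv_id := by
    rw [← Q.map_comp, ← Q.map_id]
    exact (Q_map_eq_iff _ _).2 h1
  inv_hom_id := by
    rw [← Q.map_comp, ← Q.map_id]
    exact (Q_map_eq_iff _ _).2 h2

end T

namespace DG

variable {A B C D : DG P}

lemma Homotopic.refl (f : A ⟶ B) : Homotopic f f := ⟨0, Homog.zero, by simp⟩

lemma Homotopic.of_eq {f g : A ⟶ B} (h : f = g) : Homotopic f g := h ▸ Homotopic.refl f

/-- The distinguished triangle of a chain map in the homotopy category. -/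
noncomputable abbrev coneTriT (f : A ⟶ B) : Triangle (T P) := T.Q.mapTriangle.obj (coneTri f)

lemma isZero_cone_id (A : DG P) : IsZero (T.Q.obj (cone (𝟙 A)) : T P) := by
  rw [T.isZero_Q_iff]
  refine ⟨snd A.F A.F ≫ inl A.F A.F, ?_, ?_⟩
  · have h2 : Homog (F := Fam.sum A.F A.F) (coneDeg A A) A.deg 0 (snd A.F A.F) :=
      snd_homog fun i => by ring
    have h3 : Homog (G := Fam.sum A.F A.F) A.deg (coneDeg A A) (-1) (inl A.F A.F) :=
      inl_homog fun i => by ring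
    exact h2.comp' h3 (by norm_num)
  · change cD A.d A.d (𝟙 A.F) ≫ snd A.F A.F ≫ inl A.F A.F +
      (snd A.F A.F ≫ inl A.F A.F) ≫ cD A.d A.d (𝟙 A.F) =
      𝟙 (Fam.sum A.F A.F)
    rw [← total A.F A.F]
    simp

/-! ### Maps between cones -/

/-- The map of cones induced by a homotopy commutative square. -/
@[simps]
noncomputable def coneMap {A₁ B₁ A₂ B₂ : DG P} {f₁ : A₁ ⟶ B₁} {f₂ : A₂ ⟶ B₂} (a : A₁ ⟶ A₂)
    (b : B₁ ⟶ B₂) (h : A₁.F ⟶ B₂.F) (hh : Homog A₁.deg B₂.deg (-1) h)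
    (e : f₁.f ≫ b.f = a.f ≫ f₂.f + A₁.d ≫ h + h ≫ B₂.d) : cone f₁ ⟶ cone f₂ where
  f := fst A₁.F B₁.F ≫ a.f ≫ inl A₂.F B₂.F + snd A₁.F B₁.F ≫ b.f ≫ inr A₂.F B₂.F
    + fst A₁.F B₁.F ≫ h ≫ inr A₂.F B₂.F
  hf := by
    have h1 : Homog (F := Fam.sum A₁.F B₁.F) (coneDeg A₁ B₁) A₁.deg 1 (fst A₁.F B₁.F) :=
      fst_homog fun i => by ring
    have h2 : Homog (F := Fam.sum A₁.F B₁.F) (coneDeg A₁ B₁) B₁.deg 0 (snd A₁.F B₁.F) :=
      snd_homog fun i => by ring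
    have h3 : Homog (G := Fam.sum A₂.F B₂.F) A₂.deg (coneDeg A₂ B₂) (-1) (inl A₂.F B₂.F) :=
      inl_homog fun i => by ring
    have h4 : Homog (G := Fam.sum A₂.F B₂.F) B₂.deg (coneDeg A₂ B₂) 0 (inr A₂.F B₂.F) :=
      inr_homog fun i => by ring
    exact ((h1.comp' (a.hf.comp h3) (by norm_num)).add (h2.comp' (b.hf.comp h4)
      (by norm_num))).add (h1.comp' (hh.comp h4) (by norm_num))
  comm := by
    change cD A₁.d B₁.d f₁.f ≫ _ = _ ≫ cD A₂.d B₂.d f₂.f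
    apply sum_ext
    · have e' : f₁.f ≫ b.f ≫ inr A₂.F B₂.F = (a.f ≫ f₂.f + A₁.d ≫ h + h ≫ B₂.d) ≫
        inr A₂.F B₂.F := by rw [← e, Category.assoc]
      simp [comm_assoc a, e']
      abel
    · simp [comm_assoc b]

/-- A homotopy commutative square extends to a morphism of triangles. -/
noncomputable def coneTriMap {A₁ B₁ A₂ B₂ : DG P} {f₁ : A₁ ⟶ B₁} {f₂ : A₂ ⟶ B₂} (a : A₁ ⟶ A₂)
    (b : B₁ ⟶ B₂) (h : A₁.F ⟶ B₂.F) (hh : Homog A₁.deg B₂.deg (-1) h)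
    (e : f₁.f ≫ b.f = a.f ≫ f₂.f + A₁.d ≫ h + h ≫ B₂.d) : coneTriT f₁ ⟶ coneTriT f₂ where
  hom₁ := T.Q.map a
  hom₂ := T.Q.map b
  hom₃ := T.Q.map (coneMap a b h hh e)
  comm₁ := by
    change T.Q.map f₁ ≫ T.Q.map b = T.Q.map a ≫ T.Q.map f₂
    rw [← T.Q.map_comp, ← T.Q.map_comp]
    exact (T.Q_map_eq_iff _ _).2 ⟨h, hh, e⟩
  comm₂ := by
    change T.Q.map (cinr f₁) ≫ T.Q.map (coneMap a b h hh e) = T.Q.map b ≫ T.Q.map (cinr f₂)
    rw [← T.Q.map_comp, ← T.Q.map_comp]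
    congr 1
    apply DG.hom_ext
    change inr A₁.F B₁.F ≫ (fst A₁.F B₁.F ≫ a.f ≫ inl A₂.F B₂.F + snd A₁.F B₁.F ≫ b.f ≫
      inr A₂.F B₂.F + fst A₁.F B₁.F ≫ h ≫ inr A₂.F B₂.F) = b.f ≫ inr A₂.F B₂.F
    simp
  comm₃ := by
    change (T.Q.map (cfst f₁) ≫ (T.Q.commShiftIso (1 : ℤ)).hom.app A₁) ≫ (T.Q.map a)⟦(1 : ℤ)⟧'
      = T.Q.map (coneMap a b h hh e) ≫ T.Q.map (cfst f₂) ≫ (T.Q.commShiftIso (1 : ℤ)).hom.app A₂
    have e1 : coneMap a b h hh e ≫ cfst f₂ = cfst f₁ ≫ a⟦(1 : ℤ)⟧' := by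
      apply DG.hom_ext
      change (fst A₁.F B₁.F ≫ a.f ≫ inl A₂.F B₂.F + snd A₁.F B₁.F ≫ b.f ≫
        inr A₂.F B₂.F + fst A₁.F B₁.F ≫ h ≫ inr A₂.F B₂.F) ≫ fst A₂.F B₂.F = fst A₁.F B₁.F ≫ a.f
      simp
    rw [← T.Q.map_comp_assoc, e1, T.Q.map_comp, Category.assoc, Category.assoc]
    congr 1
    exact (T.Q.commShiftIso_hom_naturality a (1 : ℤ)).symm

/-! ### Rotation -/

/-- `A⟦1⟧ ⟶ cone (B ⟶ cone f)`. -/
@[simps]
noncomputable def rotHom (f : A ⟶ B) : A⟦(1 : ℤ)⟧ ⟶ cone (cinr f) where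
  f := -(f.f ≫ inl B.F (Fam.sum A.F B.F)) + inl A.F B.F ≫ inr B.F (Fam.sum A.F B.F)
  hf := by
    have h1 : Homog (G := Fam.sum B.F (Fam.sum A.F B.F)) B.deg
      (Sum.elim (fun i => B.deg i - 1) (coneDeg A B)) (-1) (inl B.F (Fam.sum A.F B.F)) :=
      inl_homog fun i => by ring
    have h2 : Homog (G := Fam.sum B.F (Fam.sum A.F B.F)) (coneDeg A B)
      (Sum.elim (fun i => B.deg i - 1) (coneDeg A B)) 0 (inr B.F (Fam.sum A.F B.F)) :=
      inr_homog (F := B.F) (G := Fam.sum A.F B.F) fun i => by ring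
    have h3 : Homog (G := Fam.sum A.F B.F) A.deg (coneDeg A B) (-1) (inl A.F B.F) :=
      inl_homog fun i => by ring
    have h5 : Homog (G := Fam.sum B.F (Fam.sum A.F B.F)) A.deg
      (Sum.elim (fun i => B.deg i - 1) (coneDeg A B)) (-1)
      (-(f.f ≫ inl B.F (Fam.sum A.F B.F)) + inl A.F B.F ≫ inr B.F (Fam.sum A.F B.F)) :=
      (f.hf.comp' h1 (by norm_num)).neg.add (h3.comp' h2 (by norm_num))
    refine h5.congr (a' := fun i => A.deg i - 1) (fun i j hij => ?_)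
    change Sum.elim (fun i => B.deg i - 1) (coneDeg A B) j = A.deg i - 1 + 0
    rw [hij]; ring
  comm := by
    change (((1 : ℤ).negOnePow : ℤ) • A.d) ≫ (-(f.f ≫ inl B.F (Fam.sum A.F B.F))
      + inl A.F B.F ≫ inr B.F (Fam.sum A.F B.F)) = (-(f.f ≫ inl B.F (Fam.sum A.F B.F))
      + inl A.F B.F ≫ inr B.F (Fam.sum A.F B.F)) ≫
      cD B.d (cD A.d B.d f.f) (inr A.F B.F)
    simp [comm_assoc f]
    abel

/-- `cone (B ⟶ cone f) ⟶ A⟦1⟧`. -/
@[simps]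
noncomputable def rotInv (f : A ⟶ B) : cone (cinr f) ⟶ A⟦(1 : ℤ)⟧ where
  f := snd B.F (Fam.sum A.F B.F) ≫ fst A.F B.F
  hf := by
    have h2 : Homog (F := Fam.sum B.F (Fam.sum A.F B.F))
      (Sum.elim (fun i => B.deg i - 1) (coneDeg A B)) (coneDeg A B) 0
      (snd B.F (Fam.sum A.F B.F)) :=
      snd_homog (F := B.F) (G := Fam.sum A.F B.F) fun i => by ring
    have h3 : Homog (F := Fam.sum A.F B.F) (coneDeg A B) (fun i => A.deg i - 1) 0
      (fst A.F B.F) := fst_homog fun i => by ring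
    exact h2.comp' h3 (by norm_num)
  comm := by
    change cD B.d (cD A.d B.d f.f) (inr A.F B.F) ≫ snd B.F (Fam.sum A.F B.F) ≫ fst A.F B.F =
      (snd B.F (Fam.sum A.F B.F) ≫ fst A.F B.F) ≫ (((1 : ℤ).negOnePow : ℤ) • A.d)
    simp

lemma rotHom_rotInv (f : A ⟶ B) : rotHom f ≫ rotInv f = 𝟙 _ := by
  apply DG.hom_ext
  change (-(f.f ≫ inl B.F (Fam.sum A.F B.F)) + inl A.F B.F ≫ inr B.F (Fam.sum A.F B.F)) ≫
    snd B.F (Fam.sum A.F B.F) ≫ fst A.F B.F = 𝟙 A.F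
  simp

lemma rotInv_rotHom (f : A ⟶ B) : Homotopic (rotInv f ≫ rotHom f) (𝟙 _) := by
  refine ⟨-(snd B.F (Fam.sum A.F B.F) ≫ snd A.F B.F ≫ inl B.F (Fam.sum A.F B.F)), ?_, ?_⟩
  · have h2 : Homog (F := Fam.sum B.F (Fam.sum A.F B.F))
      (Sum.elim (fun i => B.deg i - 1) (coneDeg A B)) (coneDeg A B) 0
      (snd B.F (Fam.sum A.F B.F)) :=
      snd_homog (F := B.F) (G := Fam.sum A.F B.F) fun i => by ring
    have h3 : Homog (F := Fam.sum A.F B.F) (coneDeg A B) B.deg 0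
      (snd A.F B.F) := snd_homog fun i => by ring
    have h1 : Homog (G := Fam.sum B.F (Fam.sum A.F B.F)) B.deg
      (Sum.elim (fun i => B.deg i - 1) (coneDeg A B)) (-1) (inl B.F (Fam.sum A.F B.F)) :=
      inl_homog fun i => by ring
    exact (h2.comp' (h3.comp h1) (by norm_num)).neg
  · change (snd B.F (Fam.sum A.F B.F) ≫ fst A.F B.F) ≫ (-(f.f ≫ inl B.F (Fam.sum A.F B.F))
      + inl A.F B.F ≫ inr B.F (Fam.sum A.F B.F)) = 𝟙 (Fam.sum B.F (Fam.sum A.F B.F))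
      + cD B.d (cD A.d B.d f.f) (inr A.F B.F) ≫
        (-(snd B.F (Fam.sum A.F B.F) ≫ snd A.F B.F ≫ inl B.F (Fam.sum A.F B.F)))
      + (-(snd B.F (Fam.sum A.F B.F) ≫ snd A.F B.F ≫ inl B.F (Fam.sum A.F B.F))) ≫
        cD B.d (cD A.d B.d f.f) (inr A.F B.F)
    apply sum_ext
    · simp
    · apply sum_ext
      · simp
        abel
      · simp
        abel

lemma cfst_rotHom (f : A ⟶ B) : Homotopic (cfst f ≫ rotHom f) (cinr (cinr f)) := by
  refine ⟨-(snd A.F B.F ≫ inl B.F (Fam.sum A.F B.F)), ?_, ?_⟩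
  · have h3 : Homog (F := Fam.sum A.F B.F) (coneDeg A B) B.deg 0
      (snd A.F B.F) := snd_homog fun i => by ring
    have h1 : Homog (G := Fam.sum B.F (Fam.sum A.F B.F)) B.deg
      (Sum.elim (fun i => B.deg i - 1) (coneDeg A B)) (-1) (inl B.F (Fam.sum A.F B.F)) :=
      inl_homog fun i => by ring
    exact (h3.comp' h1 (by norm_num)).neg
  · change fst A.F B.F ≫ (-(f.f ≫ inl B.F (Fam.sum A.F B.F))
      + inl A.F B.F ≫ inr B.F (Fam.sum A.F B.F)) = inr B.F (Fam.sum A.F B.F)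
      + cD A.d B.d f.f ≫ (-(snd A.F B.F ≫ inl B.F (Fam.sum A.F B.F)))
      + (-(snd A.F B.F ≫ inl B.F (Fam.sum A.F B.F))) ≫ cD B.d (cD A.d B.d f.f) (inr A.F B.F)
    apply sum_ext
    · simp
      abel
    · simp
      abel

lemma rotHom_cfst (f : A ⟶ B) : rotHom f ≫ cfst (cinr f) = -(f⟦(1 : ℤ)⟧') := by
  apply DG.hom_ext
  change (-(f.f ≫ inl B.F (Fam.sum A.F B.F)) + inl A.F B.F ≫ inr B.F (Fam.sum A.F B.F)) ≫
    fst B.F (Fam.sum A.F B.F) = -f.f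
  simp

/-- The rotated cone triangle. -/
noncomputable def rotIso (f : A ⟶ B) : (coneTriT f).rotate ≅ coneTriT (cinr f) := by
  refine Triangle.isoMk _ _ (Iso.refl _) (Iso.refl _)
    ((T.Q.commShiftIso (1 : ℤ)).symm.app A ≪≫ T.isoMk (rotHom f) (rotInv f)
      (Homotopic.of_eq (rotHom_rotInv f)) (rotInv_rotHom f)) ?_ ?_ ?_
  · change T.Q.map (cinr f) ≫ 𝟙 _ = 𝟙 _ ≫ T.Q.map (cinr f)
    simp
  · change (T.Q.map (cfst f) ≫ (T.Q.commShiftIso (1 : ℤ)).hom.app A) ≫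
      (T.Q.commShiftIso (1 : ℤ)).inv.app A ≫ T.Q.map (rotHom f) = 𝟙 _ ≫ T.Q.map (cinr (cinr f))
    rw [Category.assoc, Iso.hom_inv_id_app_assoc, ← T.Q.map_comp, Category.id_comp]
    exact (T.Q_map_eq_iff _ _).2 (cfst_rotHom f)
  · change (-(T.Q.map f)⟦(1 : ℤ)⟧') ≫ (𝟙 (T.Q.obj B))⟦(1 : ℤ)⟧' =
      ((T.Q.commShiftIso (1 : ℤ)).inv.app A ≫ T.Q.map (rotHom f)) ≫
        T.Q.map (cfst (cinr f)) ≫ (T.Q.commShiftIso (1 : ℤ)).hom.app B
    rw [Category.assoc, ← T.Q.map_comp_assoc, rotHom_cfst, CategoryTheory.Functor.map_id,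
      Category.comp_id, Functor.map_neg, Preadditive.neg_comp, Preadditive.comp_neg]
    congr 1
    have := T.Q.commShiftIso_hom_naturality f (1 : ℤ)
    rw [this, Iso.inv_hom_id_app_assoc]

/-! ### Shift of cones -/

/-- `(cone f)⟦n⟧ ≅ cone (f⟦n⟧)`. -/
noncomputable def shConeIso (n : ℤ) (f : A ⟶ B) : (cone f)⟦n⟧ ≅ cone (f⟦n⟧') := by
  have h1 : Homog (F := Fam.sum A.F B.F) (coneDeg A B) A.deg 1 (fst A.F B.F) :=
    fst_homog fun i => by ring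
  have h2 : Homog (F := Fam.sum A.F B.F) (coneDeg A B) B.deg 0 (snd A.F B.F) :=
    snd_homog fun i => by ring
  have h3 : Homog (G := Fam.sum A.F B.F) A.deg (coneDeg A B) (-1) (inl A.F B.F) :=
    inl_homog fun i => by ring
  have h4 : Homog (G := Fam.sum A.F B.F) B.deg (coneDeg A B) 0 (inr A.F B.F) :=
    inr_homog fun i => by ring
  have h5 : Homog (F := Fam.sum A.F B.F) (G := Fam.sum A.F B.F) (coneDeg A B) (coneDeg A B) 0
      ((n.negOnePow : ℤ) • (fst A.F B.F ≫ inl A.F B.F) + snd A.F B.F ≫ inr A.F B.F) :=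
    ((h1.comp' h3 (by norm_num)).zsmul _).add (h2.comp' h4 (by norm_num))
  have hs : ((n.negOnePow : ℤ) • (fst A.F B.F ≫ inl A.F B.F) + snd A.F B.F ≫ inr A.F B.F) ≫
      ((n.negOnePow : ℤ) • (fst A.F B.F ≫ inl A.F B.F) + snd A.F B.F ≫ inr A.F B.F) =
        𝟙 (Fam.sum A.F B.F) := by
    rw [← total A.F B.F]
    rcases Int.units_eq_one_or n.negOnePow with h | h <;> simp [h]
  have hdeg : ∀ i : A.F.ι ⊕ B.F.ι, coneDeg A B i - n = coneDeg (sh n A) (sh n B) i := by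
    rintro (i | i)
    · change A.deg i - 1 - n = A.deg i - n - 1
      ring
    · rfl
  refine isoMk (A := sh n (cone f)) (B := cone (f⟦n⟧'))
    ⟨(n.negOnePow : ℤ) • (fst A.F B.F ≫ inl A.F B.F) + snd A.F B.F ≫ inr A.F B.F, ?_, ?_⟩
    ⟨(n.negOnePow : ℤ) • (fst A.F B.F ≫ inl A.F B.F) + snd A.F B.F ≫ inr A.F B.F, ?_, ?_⟩ hs hs
  · refine h5.congr (a' := fun i => coneDeg A B i - n) (b' := coneDeg (sh n A) (sh n B))
      fun i j hij => ?_
    rw [← hdeg, hij]; ring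
  · change ((n.negOnePow : ℤ) • cD A.d B.d f.f) ≫ ((n.negOnePow : ℤ) • (fst A.F B.F ≫ inl A.F B.F)
      + snd A.F B.F ≫ inr A.F B.F) = ((n.negOnePow : ℤ) • (fst A.F B.F ≫ inl A.F B.F)
      + snd A.F B.F ≫ inr A.F B.F) ≫ cD ((n.negOnePow : ℤ) • A.d) ((n.negOnePow : ℤ) • B.d) f.f
    apply sum_ext
    · rcases Int.units_eq_one_or n.negOnePow with h | h
      · simp [h]
      · simp [h]
        abel
    · rcases Int.units_eq_one_or n.negOnePow with h | h <;> simp [h]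
  · refine h5.congr (b' := fun i => coneDeg A B i - n) (a' := coneDeg (sh n A) (sh n B))
      fun i j hij => ?_
    rw [← hdeg, hij]; ring
  · change cD ((n.negOnePow : ℤ) • A.d) ((n.negOnePow : ℤ) • B.d) f.f ≫
      ((n.negOnePow : ℤ) • (fst A.F B.F ≫ inl A.F B.F)
      + snd A.F B.F ≫ inr A.F B.F) = ((n.negOnePow : ℤ) • (fst A.F B.F ≫ inl A.F B.F)
      + snd A.F B.F ≫ inr A.F B.F) ≫ ((n.negOnePow : ℤ) • cD A.d B.d f.f)
    apply sum_ext
    · rcases Int.units_eq_one_or n.negOnePow with h | h <;> simp [h]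
    · rcases Int.units_eq_one_or n.negOnePow with h | h <;> simp [h]

lemma shConeIso_hom_f (n : ℤ) (f : A ⟶ B) : (shConeIso n f).hom.f =
    (n.negOnePow : ℤ) • (fst A.F B.F ≫ inl A.F B.F) + snd A.F B.F ≫ inr A.F B.F := rfl

lemma shiftFunctorAdd'_hom_f (n m k : ℤ) (h : n + m = k) (A : DG P) :
    ((shiftFunctorAdd' (DG P) n m k h).hom.app A).f = 𝟙 A.F := by
  subst h
  rw [shiftFunctorAdd'_eq_shiftFunctorAdd]
  rfl

lemma shiftFunctorAdd'_inv_f (n m k : ℤ) (h : n + m = k) (A : DG P) :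
    ((shiftFunctorAdd' (DG P) n m k h).inv.app A).f = 𝟙 A.F := by
  subst h
  rw [shiftFunctorAdd'_eq_shiftFunctorAdd]
  rfl

lemma shiftFunctorComm_hom_app_f (n m : ℤ) (A : DG P) :
    ((shiftFunctorComm (DG P) n m).hom.app A).f = 𝟙 A.F := by
  rw [shiftFunctorComm_eq (DG P) n m (n + m) rfl]
  have h1 := shiftFunctorAdd'_inv_f n m (n + m) rfl A
  have h2 := shiftFunctorAdd'_hom_f m n (n + m) (add_comm m n) A
  have h3 : (((shiftFunctorAdd' (DG P) n m (n + m) rfl).symm ≪≫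
      shiftFunctorAdd' (DG P) m n (n + m) (add_comm m n)).hom.app A).f =
      ((shiftFunctorAdd' (DG P) n m (n + m) rfl).inv.app A).f ≫
        ((shiftFunctorAdd' (DG P) m n (n + m) (add_comm m n)).hom.app A).f := rfl
  rw [h3]
  exact (congrArg₂ (fun (s t : A.F ⟶ A.F) => s ≫ t) h1 h2).trans (Category.comp_id _)

/-- The automorphism `(-1)^n`. -/
@[simps]
noncomputable def sgnIso (n : ℤ) (A : DG P) : A ≅ A where
  hom := (n.negOnePow : ℤ) • 𝟙 A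
  inv := (n.negOnePow : ℤ) • 𝟙 A
  hom_inv_id := by
    rcases Int.units_eq_one_or n.negOnePow with h | h <;> simp [h]
  inv_hom_id := by
    rcases Int.units_eq_one_or n.negOnePow with h | h <;> simp [h]

/-- The shift of a cone triangle. -/
noncomputable def shConeTriIso (n : ℤ) (f : A ⟶ B) :
    (Triangle.shiftFunctor (DG P) n).obj (coneTri f) ≅ coneTri (f⟦n⟧') := by
  refine Triangle.isoMk _ _ (Iso.refl _)
    (sgnIso n (B⟦n⟧)) (shConeIso n f) ?_ ?_ ?_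
  · apply DG.hom_ext
    change ((n.negOnePow : ℤ) • f.f) ≫ ((n.negOnePow : ℤ) • 𝟙 B.F) = 𝟙 A.F ≫ f.f
    rcases Int.units_eq_one_or n.negOnePow with h | h <;> simp [h]
  · apply DG.hom_ext
    change ((n.negOnePow : ℤ) • inr A.F B.F) ≫
      ((n.negOnePow : ℤ) • (fst A.F B.F ≫ inl A.F B.F) + snd A.F B.F ≫ inr A.F B.F) =
      ((n.negOnePow : ℤ) • 𝟙 B.F) ≫ inr A.F B.F
    simp
  · apply DG.hom_ext
    change ((n.negOnePow : ℤ) • (fst A.F B.F ≫ ((shiftFunctorComm (DG P) 1 n).hom.app A).f)) ≫ 𝟙 A.F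
      = ((n.negOnePow : ℤ) • (fst A.F B.F ≫ inl A.F B.F) + snd A.F B.F ≫ inr A.F B.F) ≫ fst A.F B.F
    have h1 := shiftFunctorComm_hom_app_f 1 n A
    refine ((congrArg (fun t : A.F ⟶ A.F => ((n.negOnePow : ℤ) • (fst A.F B.F ≫ t)) ≫ 𝟙 A.F)
      h1)).trans ?_
    simp

/-- The shift of a cone triangle in the homotopy category. -/
noncomputable def shConeTriTIso (n : ℤ) (f : A ⟶ B) :
    (Triangle.shiftFunctor (T P) n).obj (coneTriT f) ≅ coneTriT (f⟦n⟧') :=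
  ((T.Q : DG P ⥤ T P).mapTriangle.commShiftIso n).symm.app _ ≪≫
    (T.Q : DG P ⥤ T P).mapTriangle.mapIso (shConeTriIso n f)

end DG

end Pool.Agent.H75.TT
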